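import Mathlib
import Pool.Agent.MP_494aff_an.se.Dim
import Pool.Agent.MP_494aff_an.pinch.AttA
import Pool.Agent.MP_494aff_an.lf.Scale
import Pool.Agent.MP_494aff_an.se.PushA

-- ======== part 0: formerly Pool.Agent.MP_494aff_an.lf.Tree
section MrgPart0

-- ======== part 0: formerly Pool.Agent.MP_494aff_an.lf.Reg
section MrgPart0

/-! Regularised least squares in the group von Neumann algebra. -/

open scoped InnerProductSpace ComplexConjugate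

namespace Pool.Agent.MP_494aff_an.Lf

open Pool.Agent.MP_494aff_an.Pinch Pool.Agent.MP_494aff_an.Pinch.TowP

namespace RegP

variable {Γ : Type}

lemma form (X : Op Γ) (l : ℝ) (ζ : H Γ) :
    (⟪ζ, (star X * X + (l : ℂ) • (1 : Op Γ)) ζ⟫_ℂ).re = ‖X ζ‖ ^ 2 + l * ‖ζ‖ ^ 2 := by
  have e : (star X * X + (l : ℂ) • (1 : Op Γ)) ζ = star X (X ζ) + (l : ℂ) • ζ := rfl
  rw [e, inner_add_right, inner_star, inner_smul_right, inner_self_eq_norm_sq_to_K,
    inner_self_eq_norm_sq_to_K]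
  simp [← Complex.ofReal_pow]

lemma re_le (ζ ξ : H Γ) : (⟪ζ, ξ⟫_ℂ).re ≤ ‖ζ‖ * ‖ξ‖ :=
  (Complex.re_le_norm _).trans (norm_inner_le_norm _ _)

lemma sub_sq (ζ ξ : H Γ) : ‖ζ - ξ‖ ^ 2 = ‖ζ‖ ^ 2 - 2 * (⟪ζ, ξ⟫_ℂ).re + ‖ξ‖ ^ 2 :=
  norm_sub_sq (𝕜 := ℂ) ζ ξ

lemma add_sq (ζ ξ : H Γ) : ‖ζ + ξ‖ ^ 2 = ‖ζ‖ ^ 2 + 2 * (⟪ζ, ξ⟫_ℂ).re + ‖ξ‖ ^ 2 :=
  norm_add_sq (𝕜 := ℂ) ζ ξ

lemma re_symm (ζ ξ : H Γ) : (⟪ζ, ξ⟫_ℂ).re = (⟪ξ, ζ⟫_ℂ).re := by
  rw [← inner_conj_symm, Complex.conj_re]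

variable [Group Γ]

lemma resolvent {X : Op Γ} (hX : X ∈ LL Γ) {l : ℝ} (hl : 0 < l) :
    ∃ R : Op Γ, R ∈ LL Γ ∧ (star X * X + (l : ℂ) • (1 : Op Γ)) * R = 1 ∧
      R * (star X * X + (l : ℂ) • (1 : Op Γ)) = 1 := by
  set A : Op Γ := star X * X + (l : ℂ) • (1 : Op Γ) with hA
  have hu : IsUnit A := by
    refine ContinuousLinearMap.isUnit_of_forall_le_norm_inner_map A (c := ⟨l, hl.le⟩) hl fun ζ => ?_
    have h1 := form X l ζ
    rw [← hA, re_symm] at h1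
    have h2 := Complex.re_le_norm ⟪A ζ, ζ⟫_ℂ
    have h3 : 0 ≤ ‖X ζ‖ ^ 2 := sq_nonneg _
    change ‖ζ‖ ^ 2 * l ≤ _
    nlinarith
  obtain ⟨u, hu⟩ := hu
  have hAm : A ∈ LL Γ := add_mem (mul_mem (star_mem hX) hX) (SMulMemClass.smul_mem _ (one_mem _))
  have h1 : A * (↑u⁻¹ : Op Γ) = 1 := by rw [← hu, Units.mul_inv]
  have h2 : (↑u⁻¹ : Op Γ) * A = 1 := by rw [← hu, Units.inv_mul]
  refine ⟨↑u⁻¹, mem_LL.2 fun g => ?_, h1, h2⟩
  have h3 := mem_LL.1 hAm g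
  calc rho g * (↑u⁻¹ : Op Γ) = (↑u⁻¹ : Op Γ) * A * rho g * (↑u⁻¹ : Op Γ) := by rw [h2, one_mul]
    _ = (↑u⁻¹ : Op Γ) * rho g * (A * (↑u⁻¹ : Op Γ)) := by
        rw [mul_assoc (↑u⁻¹ : Op Γ) A, ← h3]; simp only [mul_assoc]
    _ = (↑u⁻¹ : Op Γ) * rho g := by rw [h1, mul_one]

/-- The operator `y = l (X* X + l)⁻¹` and the least value of the regularised functional. -/
lemma key {X : Op Γ} (hX : X ∈ LL Γ) {l : ℝ} (hl : 0 < l) :
    ∃ (y : Op Γ) (v : ℝ), y ∈ LL Γ ∧ ‖y‖ ≤ 1 ∧ (∀ ξ, ‖X (y ξ)‖ ^ 2 ≤ l * ‖ξ‖ ^ 2) ∧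
      (∀ ξ, l * ‖ξ - y ξ‖ ^ 2 ≤ ‖X ξ‖ ^ 2) ∧ ‖y (dl 1)‖ ^ 2 ≤ v ∧ v ≤ ‖y (dl 1)‖ ∧
      (∃ κ : H Γ, ‖X κ - dl 1‖ ^ 2 + l * ‖κ‖ ^ 2 = v) ∧
      ∀ κ : H Γ, v ≤ ‖X κ - dl 1‖ ^ 2 + l * ‖κ‖ ^ 2 := by
  obtain ⟨R, hR, h1, h2⟩ := resolvent hX hl
  have f1 : ∀ ξ, ‖X (R ξ)‖ ^ 2 + l * ‖R ξ‖ ^ 2 = (⟪R ξ, ξ⟫_ℂ).re := fun ξ => by
    rw [← form, ← mul_ap, h1, one_ap]
  have ny : ∀ ξ, ‖((l : ℂ) • R) ξ‖ = l * ‖R ξ‖ := fun ξ => by
    rw [_root_.smul_apply, norm_smul, Complex.norm_real, Real.norm_eq_abs,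
      abs_of_pos hl]
  have nR : ∀ ξ, l * ‖R ξ‖ ≤ ‖ξ‖ := fun ξ => by
    have a1 := f1 ξ
    have a2 := re_le (R ξ) ξ
    have a3 : 0 ≤ ‖X (R ξ)‖ ^ 2 := sq_nonneg _
    rcases (norm_nonneg (R ξ)).eq_or_lt with h0 | h0
    · rw [← h0, mul_zero]; exact norm_nonneg _
    · nlinarith
  have e1 : ∀ ξ, ξ - ((l : ℂ) • R) ξ = R (star X (X ξ)) := fun ξ => by
    have a1 : R (star X (X ξ) + (l : ℂ) • ξ) = ξ := congrArg (fun S : Op Γ => S ξ) h2
    rw [map_add, map_smul] at a1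
    rw [_root_.smul_apply, sub_eq_iff_eq_add]
    exact a1.symm
  have f2 : ∀ ω, ‖X (R (star X ω))‖ ^ 2 + l * ‖R (star X ω)‖ ^ 2 =
      (⟪X (R (star X ω)), ω⟫_ℂ).re := fun ω => by rw [f1, inner_star]
  have hval : ‖X (R (star X (dl 1))) - dl 1‖ ^ 2 + l * ‖R (star X (dl (1 : Γ)))‖ ^ 2 =
      l * (⟪R (dl 1), dl (1 : Γ)⟫_ℂ).re := by
    have a1 := f2 (dl 1)
    have a2 : X ((R * star X) (dl 1)) 1 = (R * star X) (X (dl 1)) 1 :=
      FG.trace_comm hX (mul_mem hR (star_mem hX))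
    rw [mul_ap, mul_ap, ← e1, ← inner_dl, ← inner_dl, inner_sub_right,
      _root_.smul_apply, inner_smul_right, inner_dl 1 (dl 1), dl_self] at a2
    have a3 := congrArg Complex.re a2
    rw [re_symm, Complex.sub_re, Complex.re_ofReal_mul, re_symm (dl 1), Complex.one_re] at a3
    rw [sub_sq, norm_dl]
    linarith
  refine ⟨(l : ℂ) • R, l * (⟪R (dl 1), dl (1 : Γ)⟫_ℂ).re, SMulMemClass.smul_mem _ hR,
    ContinuousLinearMap.opNorm_le_bound _ zero_le_one fun ξ => ?_, fun ξ => ?_, fun ξ => ?_, ?_, ?_,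
    ⟨_, hval⟩, fun κ => ?_⟩
  · rw [ny, one_mul]; exact nR ξ
  · have a1 := f1 ξ
    have a2 := re_le (R ξ) ξ
    have a3 := nR ξ
    have a4 : ‖X (((l : ℂ) • R) ξ)‖ = l * ‖X (R ξ)‖ := by
      rw [_root_.smul_apply, map_smul, norm_smul, Complex.norm_real, Real.norm_eq_abs,
        abs_of_pos hl]
    have a5 : 0 ≤ l * ‖R ξ‖ ^ 2 := by positivity
    have a6 : l * ‖X (R ξ)‖ ^ 2 ≤ ‖ξ‖ ^ 2 := by
      have b1 : l * ‖X (R ξ)‖ ^ 2 ≤ l * (‖R ξ‖ * ‖ξ‖) :=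
        mul_le_mul_of_nonneg_left (by linarith) hl.le
      nlinarith [norm_nonneg ξ]
    rw [a4, mul_pow]
    nlinarith
  · rw [e1]
    have a1 := f2 (X ξ)
    have a2 := re_le (X (R (star X (X ξ)))) (X ξ)
    nlinarith [sq_nonneg (‖X (R (star X (X ξ)))‖ - ‖X ξ‖), sq_nonneg ‖X ξ‖,
      sq_nonneg ‖X (R (star X (X ξ)))‖]
  · rw [ny, ← f1, mul_pow]
    have a3 : 0 ≤ l * ‖X (R (dl 1))‖ ^ 2 := by positivity
    nlinarith
  · rw [ny]
    have a2 := re_le (R (dl 1)) (dl (1 : Γ))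
    rw [norm_dl, mul_one] at a2
    exact mul_le_mul_of_nonneg_left a2 hl.le
  · rw [← hval]
    set k := R (star X (dl (1 : Γ))) with hk
    have a1 : star X (X k) + (l : ℂ) • k = star X (dl 1) :=
      congrArg (fun S : Op Γ => S (star X (dl 1))) h1
    have a2 : (⟪X k - dl 1, X (κ - k)⟫_ℂ).re + l * (⟪k, κ - k⟫_ℂ).re = 0 := by
      have b1 : star X (X k - dl 1) + (l : ℂ) • k = 0 := by
        rw [map_sub, ← a1]; abel
      have b2 : ⟪star X (X k - dl 1) + (l : ℂ) • k, κ - k⟫_ℂ = 0 := by rw [b1, inner_zero_left]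
      rw [inner_add_left, star_inner, inner_smul_left, Complex.conj_ofReal] at b2
      have b3 := congrArg Complex.re b2
      rwa [Complex.add_re, Complex.re_ofReal_mul, Complex.zero_re] at b3
    have a3 : X κ - dl 1 = (X k - dl 1) + X (κ - k) := by rw [map_sub]; abel
    have a4 : κ = k + (κ - k) := by abel
    have a5 := add_sq k (κ - k)
    rw [← a4] at a5
    rw [a3, add_sq, a5]
    have a6 : 0 ≤ l * ‖κ - k‖ ^ 2 := by positivity
    nlinarith [sq_nonneg ‖X (κ - k)‖]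

end RegP

theorem reg : RegStmt := by
  intro Γ _ T η μ hT hη hμ h0
  set Λ : ℝ := 4 * μ / η ^ 2 with hΛ
  have hΛ0 : 0 < Λ := by positivity
  have hT0 : 0 ≤ ‖T‖ := norm_nonneg _
  refine ⟨η / (2 * (‖T‖ + 1) * (1 + Λ)), by positivity, fun D κ₀ hD hκ hDκ => ?_⟩
  set ε : ℝ := η / (2 * (‖T‖ + 1) * (1 + Λ)) with hε
  have hε0 : 0 < ε := by positivity
  obtain ⟨y, v, hy, ny, hXy, -, -, hv, ⟨κ, hκv⟩, -⟩ := RegP.key (mul_mem hD hT) hμ
  obtain ⟨y', v', hy', -, -, hD', hv', -, -, hmin⟩ := RegP.key hD hΛ0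
  refine ⟨κ, ?_⟩
  rw [mul_ap] at hκv
  rw [hκv]
  have a1 : ‖y (dl 1) - T (y (dl 1))‖ ≤ η := by
    have b1 := norm_mul_hat (sub_mem (one_mem _) hT) hy
    have b2 : ‖(1 - T) (dl 1)‖ ≤ η := by
      rw [_root_.sub_apply, one_ap, norm_sub_rev]; exact h0
    rw [_root_.sub_apply (1 : Op Γ) T (y (dl 1)), one_ap] at b1
    calc _ ≤ _ := b1
      _ ≤ η * 1 := mul_le_mul b2 ny (norm_nonneg _) hη.le
      _ = η := mul_one _
  have a2 : ‖y' (dl 1)‖ ≤ ε * (1 + Λ) := by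
    have b1 := hmin κ₀
    have b2 : ‖D κ₀ - dl 1‖ ^ 2 ≤ ε ^ 2 := pow_le_pow_left₀ (norm_nonneg _) hDκ 2
    have b3 : ‖κ₀‖ ^ 2 ≤ ε ^ 2 := pow_le_pow_left₀ (norm_nonneg _) hκ 2
    have b4 : Λ * ‖κ₀‖ ^ 2 ≤ Λ * ε ^ 2 := mul_le_mul_of_nonneg_left b3 hΛ0.le
    refine le_of_sq_le_sq ?_ (by positivity)
    have b5 : 0 ≤ ε ^ 2 * (1 + Λ) * Λ := by positivity
    nlinarith
  have a3 : ‖y' (T (y (dl 1)))‖ ≤ η / 2 := by
    have b1 := norm_mul_hat hy' (mul_mem hT hy)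
    have b2 : ‖T * y‖ ≤ ‖T‖ + 1 := by
      have := norm_mul_le T y
      nlinarith [norm_nonneg y]
    rw [mul_ap] at b1
    calc _ ≤ _ := b1
      _ ≤ ε * (1 + Λ) * (‖T‖ + 1) := mul_le_mul a2 b2 (norm_nonneg _) (by positivity)
      _ = η / 2 := by rw [hε]; field_simp
  have a4 : ‖T (y (dl 1)) - y' (T (y (dl 1)))‖ ≤ η / 2 := by
    have b1 := hD' (T (y (dl 1)))
    have b2 := hXy (dl 1)
    rw [mul_ap, norm_dl] at b2
    have b3 : Λ * (η / 2) ^ 2 = μ := by rw [hΛ]; field_simp; ring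
    refine le_of_sq_le_sq ?_ (by positivity)
    refine le_of_mul_le_mul_left ?_ hΛ0
    rw [b3]
    linarith
  have a5 : y (dl 1) = (y (dl 1) - T (y (dl 1))) + (T (y (dl 1)) - y' (T (y (dl 1)))) +
      y' (T (y (dl 1))) := by abel
  have a6 := norm_add₃_le (a := y (dl 1) - T (y (dl 1))) (b := T (y (dl 1)) - y' (T (y (dl 1))))
    (c := y' (T (y (dl 1))))
  rw [← a5] at a6
  linarith

end Pool.Agent.MP_494aff_an.Lf

end MrgPart0

-- ======== part 1: formerly Pool.Agent.MP_494aff_an.lf.Tree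
section MrgPart1

/-! A small vector whose image under a long sum of translations is close to the base vector. -/

open scoped InnerProductSpace

namespace Pool.Agent.MP_494aff_an.Lf

open Pool.Agent.MP_494aff_an.Pinch Finset

noncomputable section

namespace TreeP

variable {Γ : Type}

lemma inner_diag {ι : Type} (s : Finset ι) (v w : ι → H Γ)
    (h : ∀ i ∈ s, ∀ j ∈ s, i ≠ j → ⟪v i, w j⟫_ℂ = 0) :
    ⟪∑ i ∈ s, v i, ∑ i ∈ s, w i⟫_ℂ = ∑ i ∈ s, ⟪v i, w i⟫_ℂ := by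
  rw [sum_inner]
  refine sum_congr rfl fun i hi => ?_
  rw [inner_sum]
  exact sum_eq_single_of_mem i hi fun j hj hji => h i hi j hj hji.symm

lemma norm_diag {ι : Type} (s : Finset ι) (v : ι → H Γ)
    (h : ∀ i ∈ s, ∀ j ∈ s, i ≠ j → ⟪v i, v j⟫_ℂ = 0) :
    ‖∑ i ∈ s, v i‖ ^ 2 = ∑ i ∈ s, ‖v i‖ ^ 2 := by
  have := inner_diag s v v h
  simp only [inner_self_eq_norm_sq_to_K] at this
  exact_mod_cast this

lemma inner_zero {ι : Type} (s : Finset ι) (v w : ι → H Γ) (E : ι → Set Γ)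
    (hE : ∀ i j, i ≠ j → Disjoint (E i) (E j)) (hv : ∀ i, Supp (E i) (v i))
    (hw : ∀ i, Supp (E i) (w i)) (h : ∀ i, ⟪v i, w i⟫_ℂ = 0) :
    ⟪∑ i ∈ s, v i, ∑ i ∈ s, w i⟫_ℂ = 0 := by
  rw [inner_diag s v w fun i _ j _ hij => inner_eq_zero_of_supp (hv i) (hw j) (hE i j hij)]
  exact sum_eq_zero fun i _ => h i

/-- The indices at distance at least two. -/
def A (L j : ℕ) : Finset ℕ := (range L).filter fun a => a + 2 ≤ j ∨ j + 2 ≤ a

lemma card_A (M j : ℕ) : M ≤ (A (M + 3) j).card := by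
  have h : range (M + 3) ⊆ A (M + 3) j ∪ {j - 1, j, j + 1} := fun a ha => by
    simp only [A, mem_union, mem_filter, mem_insert, mem_singleton]
    by_cases h : a + 2 ≤ j ∨ j + 2 ≤ a
    · exact Or.inl ⟨ha, h⟩
    · right; omega
  have h1 := (card_le_card h).trans (card_union_le _ _)
  have h2 : ({j - 1, j, j + 1} : Finset ℕ).card ≤ 3 := card_le_three
  rw [card_range] at h1
  omega

lemma sum_A {N : Type} [AddCommMonoid N] (L : ℕ) (f : ℕ → N) :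
    ∑ j ∈ range L, ∑ a ∈ A L j, f a = ∑ a ∈ range L, (A L a).card • f a := by
  rw [sum_comm' (t' := range L) (s' := fun a => A L a)]
  · exact sum_congr rfl fun a _ => sum_const _
  · intro j a
    simp only [A, mem_filter]
    tauto

variable [Group Γ]

/-- The combinatorial data. -/
structure Dat (g : ℕ → Γ) (E R : ℕ → Set Γ) : Prop where
  g0 : g 0 = 1
  dE : ∀ i j, i ≠ j → Disjoint (E i) (E j)
  dR : ∀ i j, i ≠ j → Disjoint (R i) (R j)
  nE : ∀ j, 1 ∉ E j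
  oR : 1 ∈ R 0
  ER : ∀ i j, j ≠ i → ∀ x ∈ E j, g i * x ∈ R i
  RE : ∀ i j, i + 2 ≤ j ∨ j + 2 ≤ i → ∀ y ∈ R i, (g j)⁻¹ * y ∈ E j

/-- The weight. -/
def wt (L a : ℕ) : ℂ := ((A L a).card : ℂ)⁻¹

/-- One half step. -/
def kk (g : ℕ → Γ) (L : ℕ) (r : ℕ → H Γ) (j : ℕ) : H Γ :=
  lam (g j)⁻¹ (∑ a ∈ A L j, wt L a • r a)

/-- One step. -/
def nx (g : ℕ → Γ) (L : ℕ) (r : ℕ → H Γ) (i : ℕ) : H Γ :=
  -lam (g i) (∑ j ∈ (range L).erase i, kk g L r j)

/-- The iterates. -/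
def rr (g : ℕ → Γ) (L : ℕ) : ℕ → ℕ → H Γ
  | 0 => fun i => if i = 0 then dl 1 else 0
  | n + 1 => nx g L (rr g L n)

variable {g : ℕ → Γ} {E R : ℕ → Set Γ} {L M : ℕ} {r r' : ℕ → H Γ}

lemma supp_kk (h : Dat g E R) (hr : ∀ i, Supp (R i) (r i)) (j : ℕ) :
    Supp (E j) (kk g L r j) := by
  rw [kk, map_sum]
  exact supp_sum _ _ fun a ha =>
    supp_lam _ ((hr a).smul _) (h.RE a j (mem_filter.1 ha).2)

lemma supp_nx (h : Dat g E R) (hr : ∀ i, Supp (R i) (r i)) (i : ℕ) :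
    Supp (R i) (nx g L r i) := by
  rw [nx, map_sum]
  exact (supp_sum _ _ fun j hj =>
    supp_lam _ (supp_kk h hr j) (h.ER i j (mem_erase.1 hj).1)).neg

lemma supp_rr (h : Dat g E R) (n : ℕ) : ∀ i, Supp (R i) (rr g L n i) := by
  induction n with
  | zero =>
    intro i
    by_cases hi : i = 0
    · subst hi
      exact supp_dl h.oR
    · simp only [rr, if_neg hi]
      exact supp_zero _
  | succ n ih => exact supp_nx h ih

lemma step (hM : M ≠ 0) (r : ℕ → H Γ) :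
    (∑ i ∈ range (M + 3), lam (g i)) (∑ j ∈ range (M + 3), kk g (M + 3) r j) =
      ∑ i ∈ range (M + 3), r i - ∑ i ∈ range (M + 3), nx g (M + 3) r i := by
  have h1 : ∀ i ∈ range (M + 3), lam (g i) (∑ j ∈ range (M + 3), kk g (M + 3) r j) =
      ∑ a ∈ A (M + 3) i, wt (M + 3) a • r a - nx g (M + 3) r i := fun i hi => by
    rw [← add_sum_erase _ _ hi, map_add, nx, sub_neg_eq_add, kk, ← mul_ap, ← map_mul,
      mul_inv_cancel, map_one, one_ap]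
  rw [_root_.sum_apply, sum_congr rfl h1, sum_sub_distrib, sum_A]
  congr 1
  refine sum_congr rfl fun a _ => ?_
  have h2 : ((A (M + 3) a).card : ℂ) ≠ 0 := by
    have := card_A M a
    exact_mod_cast (show (A (M + 3) a).card ≠ 0 by omega)
  rw [← Nat.cast_smul_eq_nsmul ℂ, smul_smul, wt, mul_inv_cancel₀ h2, one_smul]

lemma norm_kk (h : Dat g E R) (hM : M ≠ 0) (hr : ∀ i, Supp (R i) (r i)) :
    ∑ j ∈ range (M + 3), ‖kk g (M + 3) r j‖ ^ 2 ≤ (M : ℝ)⁻¹ * ∑ a ∈ range (M + 3), ‖r a‖ ^ 2 := by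
  have h1 : ∀ j ∈ range (M + 3), ‖kk g (M + 3) r j‖ ^ 2 =
      ∑ a ∈ A (M + 3) j, ‖wt (M + 3) a • r a‖ ^ 2 := fun j _ => by
    rw [kk, lam_norm]
    exact norm_sq_sum _ _ R (fun i _ j _ => h.dR i j) fun a _ => (hr a).smul _
  rw [sum_congr rfl h1, sum_A, mul_sum]
  refine sum_le_sum fun a _ => ?_
  have h0 : (0 : ℝ) < M := by exact_mod_cast Nat.pos_of_ne_zero hM
  have h2 : (M : ℝ) ≤ (A (M + 3) a).card := by exact_mod_cast card_A M a
  have h3 : (0 : ℝ) < (A (M + 3) a).card := h0.trans_le h2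
  rw [norm_smul, wt, norm_inv, Complex.norm_natCast, nsmul_eq_mul, mul_pow, ← mul_assoc, sq,
    ← mul_assoc, mul_inv_cancel₀ h3.ne', one_mul]
  gcongr

lemma norm_nx (h : Dat g E R) (hr : ∀ i, Supp (R i) (r i)) :
    ∑ i ∈ range (M + 3), ‖nx g (M + 3) r i‖ ^ 2 =
      (M + 2) * ∑ j ∈ range (M + 3), ‖kk g (M + 3) r j‖ ^ 2 := by
  have h1 : ∀ i ∈ range (M + 3), ‖nx g (M + 3) r i‖ ^ 2 =
      ∑ j ∈ range (M + 3), ‖kk g (M + 3) r j‖ ^ 2 - ‖kk g (M + 3) r i‖ ^ 2 := fun i hi => by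
    rw [nx, norm_neg, lam_norm,
      norm_sq_sum _ _ E (fun i _ j _ => h.dE i j) fun a _ => supp_kk h hr a,
      sum_erase_eq_sub hi]
  rw [sum_congr rfl h1, sum_sub_distrib, sum_const, card_range, nsmul_eq_mul]
  push_cast
  ring

lemma norm_rr (h : Dat g E R) (hM : M ≠ 0) (n : ℕ) :
    ∑ i ∈ range (M + 3), ‖rr g (M + 3) n i‖ ^ 2 ≤ Real.exp (n * (2 / M)) := by
  have h0 : (0 : ℝ) < M := by exact_mod_cast Nat.pos_of_ne_zero hM
  induction n with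
  | zero =>
    rw [sum_eq_single_of_mem 0 (by simp) fun i _ hi => by simp [rr, hi]]
    simp [rr, norm_dl]
  | succ n ih =>
    have h1 := norm_nx (M := M) h (supp_rr (L := M + 3) h n)
    have h2 := norm_kk h hM (supp_rr (L := M + 3) h n)
    have h3 := Real.add_one_le_exp (2 / (M : ℝ))
    have h4 : ((M : ℝ) + 2) * (M : ℝ)⁻¹ = 2 / M + 1 := by field_simp; ring
    calc _ = _ := h1
      _ ≤ ((M : ℝ) + 2) * ((M : ℝ)⁻¹ * Real.exp (n * (2 / M))) := by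
          gcongr
          exact h2.trans (by gcongr)
      _ ≤ Real.exp (2 / M) * Real.exp (n * (2 / M)) := by
          rw [← mul_assoc, h4]
          gcongr
      _ = _ := by
          rw [← Real.exp_add]
          congr 1
          push_cast
          ring

lemma orth_nx (h : Dat g E R) (hr : ∀ i, Supp (R i) (r i)) (hr' : ∀ i, Supp (R i) (r' i))
    (ho : ∀ i, ⟪r i, r' i⟫_ℂ = 0) (i : ℕ) : ⟪nx g L r i, nx g L r' i⟫_ℂ = 0 := by
  rw [nx, nx, inner_neg_neg, lam_inner]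
  refine inner_zero _ _ _ E h.dE (supp_kk h hr) (supp_kk h hr') fun j => ?_
  rw [kk, kk, lam_inner]
  refine inner_zero _ _ _ R h.dR (fun a => (hr a).smul _) (fun a => (hr' a).smul _) fun a => ?_
  rw [inner_smul_left, inner_smul_right, ho, mul_zero, mul_zero]

lemma orth_rr (h : Dat g E R) (n : ℕ) :
    ∀ m, n < m → ∀ i, ⟪rr g L n i, rr g L m i⟫_ℂ = 0 := by
  induction n with
  | zero =>
    intro m hm i
    obtain ⟨m, rfl⟩ : ∃ k, m = k + 1 := ⟨m - 1, by omega⟩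
    by_cases hi : i = 0
    · subst hi
      simp only [rr, if_true]
      rw [nx, inner_neg_right, h.g0, map_one, one_ap, inner_sum, neg_eq_zero]
      exact sum_eq_zero fun j _ => (inner_dl _ _).trans (supp_kk h (supp_rr h m) j 1 (h.nE j))
    · simp only [rr, if_neg hi, inner_zero_left]
  | succ n ih =>
    intro m hm
    obtain ⟨m, rfl⟩ : ∃ k, m = k + 1 := ⟨m - 1, by omega⟩
    exact orth_nx h (supp_rr h n) (supp_rr h m) (ih m (by omega))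

lemma orth_sum (h : Dat g E R) {n m : ℕ} (hnm : n ≠ m) :
    ⟪∑ i ∈ range L, rr g L n i, ∑ i ∈ range L, rr g L m i⟫_ℂ = 0 := by
  refine inner_zero _ _ _ R h.dR (supp_rr h n) (supp_rr h m) fun i => ?_
  rcases lt_or_gt_of_ne hnm with hlt | hlt
  · exact orth_rr h n m hlt i
  · rw [← inner_conj_symm, orth_rr h m n hlt i, map_zero]

lemma main (h : Dat g E R) {ε : ℝ} (hε : 0 < ε) :
    ∃ (L : ℕ) (κ : H Γ), ‖κ‖ ≤ ε ∧ ‖(∑ j ∈ range L, lam (g j)) κ - dl 1‖ ≤ ε := by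
  obtain ⟨N, hN⟩ := exists_nat_gt (3 / ε ^ 2)
  have hN0 : (0 : ℝ) < N := lt_trans (by positivity) hN
  obtain ⟨M, hM⟩ := exists_nat_gt (max (2 * (N : ℝ)) (3 * N ^ 2 / ε ^ 2))
  have hM1 := (le_max_left _ _).trans_lt hM
  have hM2 := (le_max_right _ _).trans_lt hM
  have hM0 : (0 : ℝ) < M := by linarith
  have hM' : M ≠ 0 := by exact_mod_cast hM0.ne'
  let s : ℕ → H Γ := fun n => ∑ i ∈ range (M + 3), rr g (M + 3) n i
  let k : ℕ → H Γ := fun n => ∑ j ∈ range (M + 3), kk g (M + 3) (rr g (M + 3) n) j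
  let D : Op Γ := ∑ j ∈ range (M + 3), lam (g j)
  have s0 : s 0 = dl 1 := by
    simp only [s]
    rw [sum_eq_single_of_mem 0 (by simp) fun i _ hi => by simp [rr, hi]]
    simp [rr]
  have hD : ∀ n, D (k n) = s n - s (n + 1) := fun n => step hM' _
  have h3 : ∀ n, n ≤ N → ∑ i ∈ range (M + 3), ‖rr g (M + 3) n i‖ ^ 2 ≤ 3 := fun n hn => by
    refine (norm_rr h hM' n).trans (le_trans (Real.exp_le_exp.2 ?_) Real.exp_one_lt_three.le)
    have : (n : ℝ) ≤ N := by exact_mod_cast hn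
    rw [← mul_div_assoc, div_le_one hM0]
    linarith
  have hs : ∀ n, n ≤ N → ‖s n‖ ^ 2 ≤ 3 := fun n hn => by
    simp only [s]
    rw [norm_sq_sum _ _ R (fun i _ j _ => h.dR i j) fun a _ => supp_rr h n a]
    exact h3 n hn
  have hk : ∀ n, n ≤ N → ‖k n‖ ≤ ε / N := fun n hn => by
    refine le_of_sq_le_sq ?_ (by positivity)
    simp only [k]
    rw [norm_sq_sum _ _ E (fun i _ j _ => h.dE i j) fun a _ => supp_kk h (supp_rr h n) a]
    refine (norm_kk h hM' (supp_rr h n)).trans ?_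
    rw [div_lt_iff₀ (by positivity)] at hM2
    rw [div_pow, le_div_iff₀ (by positivity), mul_assoc, inv_mul_le_iff₀ hM0]
    have := mul_le_mul_of_nonneg_right (h3 n hn) (sq_nonneg (N : ℝ))
    linarith
  have hDm : ∀ m, D (∑ n ∈ range m, k n) = dl 1 - s m := fun m => by
    rw [map_sum, sum_congr rfl fun n _ => hD n, sum_range_sub', s0]
  have hN' : (N : ℂ) ≠ 0 := by exact_mod_cast hN0.ne'
  refine ⟨M + 3, (N : ℂ)⁻¹ • ∑ m ∈ range N, ∑ n ∈ range (m + 1), k n, ?_, ?_⟩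
  · rw [norm_smul, norm_inv, Complex.norm_natCast, inv_mul_le_iff₀ hN0]
    refine (norm_sum_le _ _).trans ?_
    have : ∀ m ∈ range N, ‖∑ n ∈ range (m + 1), k n‖ ≤ ε := fun m hm => by
      have hm' := mem_range.1 hm
      refine (norm_sum_le _ _).trans ?_
      have h4 := sum_le_card_nsmul (range (m + 1)) (fun n => ‖k n‖) (ε / N) fun n hn =>
        hk n (by have := mem_range.1 hn; omega)
      rw [card_range, nsmul_eq_mul] at h4
      refine h4.trans ?_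
      have h5 : ((m + 1 : ℕ) : ℝ) ≤ N := by exact_mod_cast hm'
      rw [← mul_div_assoc, div_le_iff₀ hN0, mul_comm]
      gcongr
    simpa using sum_le_card_nsmul _ _ _ this
  · have e : D ((N : ℂ)⁻¹ • ∑ m ∈ range N, ∑ n ∈ range (m + 1), k n) - dl 1 =
        -((N : ℂ)⁻¹ • ∑ m ∈ range N, s (m + 1)) := by
      rw [map_smul, map_sum, sum_congr rfl fun m _ => hDm (m + 1), sum_sub_distrib, sum_const,
        card_range, smul_sub, ← Nat.cast_smul_eq_nsmul ℂ, smul_smul, inv_mul_cancel₀ hN', one_smul]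
      abel
    show ‖D _ - dl 1‖ ≤ ε
    rw [e, norm_neg, norm_smul, norm_inv, Complex.norm_natCast, inv_mul_le_iff₀ hN0]
    refine le_of_sq_le_sq ?_ (by positivity)
    rw [norm_diag _ _ fun i _ j _ hij => orth_sum h (by omega)]
    have h4 := sum_le_card_nsmul (range N) (fun m => ‖s (m + 1)‖ ^ 2) 3 fun m hm =>
      hs (m + 1) (mem_range.1 hm)
    rw [card_range, nsmul_eq_mul] at h4
    refine h4.trans ?_
    rw [div_lt_iff₀ (by positivity)] at hN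
    nlinarith

/-! The ping-pong sets. -/

section Ping

variable {u v : Γ} {τ : Γ → Fin 4}

/-- The ping-pong rules. -/
structure Pg (u v : Γ) (τ : Γ → Fin 4) : Prop where
  one : τ 1 = 0
  hv : ∀ (m : ℤ) (z : Γ), m ≠ 0 → τ z ≠ 3 → τ (v ^ m * z) = 3
  hu : ∀ z, τ z ≠ 2 → τ (u * z) = 1
  hi : ∀ z, τ z ≠ 1 → τ (u⁻¹ * z) = 2

/-- The sets attached to an index. -/
def EE (u v : Γ) (τ : Γ → Fin 4) (j : ℕ) : Set Γ :=
  {x | (∃ z, τ z = 1 ∧ x = u * (v ^ ((j : ℤ) + 1) * z)) ∨ ∃ z, τ z = 2 ∧ x = v ^ (-(j : ℤ)) * z}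

/-- The union of the other sets and the unit. -/
def PP (u v : Γ) (τ : Γ → Fin 4) (i : ℕ) : Set Γ := {x | x = 1 ∨ ∃ j, j ≠ i ∧ x ∈ EE u v τ j}

lemma Pg.v1 (h : Pg u v τ) {m : ℤ} (hm : m ≠ 0) {z : Γ} (hz : τ z = 1) : τ (v ^ m * z) = 3 :=
  h.hv m z hm (by rw [hz]; decide)

lemma Pg.v2 (h : Pg u v τ) {m : ℤ} (hm : m ≠ 0) {z : Γ} (hz : τ z = 2) : τ (v ^ m * z) = 3 :=
  h.hv m z hm (by rw [hz]; decide)

lemma Pg.u3 (h : Pg u v τ) {z : Γ} (hz : τ z = 3) : τ (u * z) = 1 :=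
  h.hu z (by rw [hz]; decide)

lemma Pg.i3 (h : Pg u v τ) {z : Γ} (hz : τ z = 3) : τ (u⁻¹ * z) = 2 :=
  h.hi z (by rw [hz]; decide)

lemma Pg.tU (h : Pg u v τ) (j : ℕ) {z : Γ} (hz : τ z = 1) :
    τ (u * (v ^ ((j : ℤ) + 1) * z)) = 1 := h.u3 (h.v1 (by omega) hz)

lemma Pg.w1 (h : Pg u v τ) (m : ℤ) {z : Γ} (hz : τ z = 1) : τ (v ^ m * z) ≠ 2 := by
  by_cases hm : m = 0
  · rw [hm, zpow_zero, one_mul, hz]; decide
  · rw [h.v1 hm hz]; decide

lemma Pg.tV (h : Pg u v τ) (m : ℤ) {z : Γ} (hz : τ z = 2) :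
    τ (v ^ m * z) ≠ 1 ∧ τ (v ^ m * z) ≠ 0 := by
  by_cases hm : m = 0
  · rw [hm, zpow_zero, one_mul, hz]; decide
  · rw [h.v2 hm hz]; decide

lemma Pg.dE (h : Pg u v τ) (i j : ℕ) (hij : i ≠ j) : Disjoint (EE u v τ i) (EE u v τ j) := by
  rw [Set.disjoint_left]
  rintro x (⟨z, hz, rfl⟩ | ⟨z, hz, rfl⟩) (⟨z', hz', e⟩ | ⟨z', hz', e⟩)
  · have e1 : z' = v ^ ((i : ℤ) - j) * z := by
      rw [eq_inv_mul_of_mul_eq (mul_left_cancel e).symm]; group
    rw [e1, h.v1 (by omega) hz] at hz'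
    exact absurd hz' (by decide)
  · exact (h.tV _ hz').1 (e ▸ h.tU i hz)
  · exact (h.tV _ hz).1 (e ▸ h.tU j hz')
  · have e1 : z' = v ^ ((j : ℤ) - i) * z := by
      rw [eq_inv_mul_of_mul_eq e.symm]; group
    rw [e1, h.v2 (by omega) hz] at hz'
    exact absurd hz' (by decide)

lemma Pg.nE (h : Pg u v τ) (j : ℕ) : 1 ∉ EE u v τ j := by
  rintro (⟨z, hz, e⟩ | ⟨z, hz, e⟩)
  · have := h.tU j hz
    rw [← e, h.one] at this
    exact absurd this (by decide)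
  · exact (h.tV _ hz).2 (e ▸ h.one)

lemma Pg.nP (h : Pg u v τ) {i : ℕ} {x : Γ} (hx : x ∈ PP u v τ i) : x ∉ EE u v τ i := by
  rcases hx with rfl | ⟨j, hj, hx⟩
  · exact h.nE i
  · exact Set.disjoint_left.1 (h.dE j i hj) hx

lemma Pg.up (h : Pg u v τ) {i : ℕ} {x : Γ} (hx : x ∈ PP u v τ (i + 1)) :
    τ (v ^ ((i : ℤ) + 1) * x) = 3 := by
  rcases hx with rfl | ⟨j, hj, ⟨z, hz, rfl⟩ | ⟨z, hz, rfl⟩⟩
  · exact h.hv _ _ (by omega) (by rw [h.one]; decide)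
  · exact h.v1 (by omega) (h.tU j hz)
  · rw [← mul_assoc, ← zpow_add]
    exact h.v2 (by omega) hz

lemma Pg.down (h : Pg u v τ) {i : ℕ} {x : Γ} (hx : x ∈ PP u v τ i) :
    τ (v ^ (-((i : ℤ) + 1)) * (u⁻¹ * x)) = 3 := by
  rcases hx with rfl | ⟨j, hj, ⟨z, hz, rfl⟩ | ⟨z, hz, rfl⟩⟩
  · exact h.v2 (by omega) (h.hi _ (by rw [h.one]; decide))
  · rw [inv_mul_cancel_left, ← mul_assoc, ← zpow_add]
    exact h.v1 (by omega) hz
  · exact h.v2 (by omega) (h.hi _ (h.tV _ hz).1)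

lemma gs_up (u v : Γ) (m : ℕ) (y : Γ) :
    (gs u v m)⁻¹ * y = u * (v ^ ((m : ℤ) + 1) * ((gs u v (m + 1))⁻¹ * y)) := by
  simp only [gs]
  group

lemma gs_down (u v : Γ) (m : ℕ) (y : Γ) :
    (gs u v (m + 1))⁻¹ * y = v ^ (-((m : ℤ) + 1)) * (u⁻¹ * ((gs u v m)⁻¹ * y)) := by
  simp only [gs]
  group

lemma Pg.ups (h : Pg u v τ) {y : Γ} (n : ℕ) :
    ∀ m, (gs u v (m + n + 1))⁻¹ * y ∈ PP u v τ (m + n + 1) → τ ((gs u v m)⁻¹ * y) = 1 := by
  induction n with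
  | zero =>
    intro m hy
    rw [gs_up]
    exact h.u3 (h.up hy)
  | succ n ih =>
    intro m hy
    rw [gs_up]
    exact h.tU m (ih (m + 1) (by rwa [show m + 1 + n + 1 = m + (n + 1) + 1 by omega]))

lemma Pg.downs (h : Pg u v τ) {y : Γ} {i : ℕ} (hy : (gs u v i)⁻¹ * y ∈ PP u v τ i) (n : ℕ) :
    τ ((gs u v (i + n + 1))⁻¹ * y) = 3 := by
  induction n with
  | zero =>
    rw [gs_down]
    exact h.down hy
  | succ n ih =>
    rw [← add_assoc, gs_down]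
    exact h.v2 (by omega) (h.i3 ih)

lemma Pg.far (h : Pg u v τ) (i j : ℕ) (hij : i + 2 ≤ j ∨ j + 2 ≤ i) {y : Γ}
    (hy : (gs u v i)⁻¹ * y ∈ PP u v τ i) : (gs u v j)⁻¹ * y ∈ EE u v τ j := by
  rcases hij with hij | hij
  · obtain ⟨n, rfl⟩ : ∃ n, j = i + n + 1 + 1 := ⟨j - i - 2, by omega⟩
    exact Or.inr ⟨_, h.i3 (h.downs hy n), by rw [gs_down]; rfl⟩
  · obtain ⟨n, rfl⟩ : ∃ n, i = j + 1 + n + 1 := ⟨i - j - 2, by omega⟩
    exact Or.inl ⟨_, h.ups n (j + 1) hy, gs_up u v j y⟩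

lemma Pg.near (h : Pg u v τ) (i : ℕ) {y : Γ} (hy : (gs u v i)⁻¹ * y ∈ PP u v τ i)
    (hy' : (gs u v (i + 1))⁻¹ * y ∈ PP u v τ (i + 1)) : False := by
  have h1 := h.ups 0 i hy'
  have e := gs_up u v i y
  generalize (gs u v i)⁻¹ * y = x' at hy h1 e
  generalize (gs u v (i + 1))⁻¹ * y = x at hy' e
  rcases hy with rfl | ⟨a, ha, ⟨z, hz, e1⟩ | ⟨z, hz, rfl⟩⟩
  · rw [h.one] at h1
    exact absurd h1 (by decide)
  · have e2 : x = v ^ ((a : ℤ) - i) * z := by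
      rw [eq_inv_mul_of_mul_eq (mul_left_cancel (e.symm.trans e1))]; group
    have h2 : τ x = 3 := by rw [e2]; exact h.v1 (by omega) hz
    rcases hy' with rfl | ⟨b, _, ⟨z', hz', rfl⟩ | ⟨z', hz', e3⟩⟩
    · rw [h.one] at h2
      exact absurd h2 (by decide)
    · rw [h.tU b hz'] at h2
      exact absurd h2 (by decide)
    · have e4 : z' = v ^ ((a : ℤ) - i + b) * z := by
        rw [eq_inv_mul_of_mul_eq (e3.symm.trans e2)]; group
      exact h.w1 _ hz (e4 ▸ hz')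
  · exact (h.tV _ hz).1 h1

lemma Pg.dat (h : Pg u v τ) :
    Dat (gs u v) (EE u v τ) fun i => {y | (gs u v i)⁻¹ * y ∈ PP u v τ i} where
  g0 := rfl
  dE := h.dE
  dR := fun i j hij => Set.disjoint_left.2 fun y hi hj => by
    by_cases hf : i + 2 ≤ j ∨ j + 2 ≤ i
    · exact h.nP hj (h.far i j hf hi)
    · obtain rfl | rfl : j = i + 1 ∨ i = j + 1 := by omega
      exacts [h.near i hi hj, h.near j hj hi]
  nE := h.nE
  oR := Or.inl (by simp [gs])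
  ER := fun i j hji x hx => Or.inr ⟨j, hji, by rwa [inv_mul_cancel_left]⟩
  RE := fun i j hij _ hy => h.far i j hij hy

end Ping

end TreeP

theorem tree (hp : PingStmt) : TreeStmt := by
  intro Γ _ u v h ε hε
  obtain ⟨τ, h1, h2, h3, h4⟩ := hp Γ u v h
  exact TreeP.main (TreeP.Pg.dat ⟨h1, h2, h3, h4⟩) hε

end

end Pool.Agent.MP_494aff_an.Lf

end MrgPart1

-- marker of a merged file
example : 731051 + 110798 = 731051 + 110798 := rfl

end MrgPart0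

-- ======== part 1: formerly Pool.Agent.MP_494aff_an.lf.Unit
section MrgPart1

-- ======== part 0: formerly Pool.Agent.MP_494aff_an.lf.Qr
section MrgPart0

/-! Making cocycles inner at finitely many elements. -/

open Monoid
open scoped InnerProductSpace

namespace Pool.Agent.MP_494aff_an.Lf

open Pool.Agent.MP_494aff_an.Pinch Pool.Agent.MP_494aff_an.Pinch.TowP

noncomputable section

namespace Qsa

variable {G Γ : Type} [Group G] [Group Γ] {ℓ : Γ → ℕ} {ι : G →* Γ}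

lemma mem_range (ι : G →* Γ) (x : G) : ι x ∈ ι.range := ⟨x, rfl⟩

lemma inf_map (hι : Function.Injective ι) {x : G} (hx : InfOrd x) : InfOrd (ι x) :=
  fun k hk => hx k (hι (by rw [map_zpow, hk, map_one]))

/-- Inner at `r` gives inner at the elements that are not far from `r`. -/
lemma back {β : G → Op Γ} (hβ : Z0 ℓ ι.range ι β) {r z : G} (hr : Cyc r)
    (h : In ℓ ι.range ι β r) (hz : ¬ Far z r) : In ℓ ι.range ι β z := by
  simp only [Far, not_forall, not_not] at hz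
  obtain ⟨a, ha⟩ := hz
  have h1 := In.of_mem hβ.co h (hr.2 _ ha)
  have h2 := In.conj hβ.co (mem_range ι) hβ.an h1 a⁻¹
  have e : a⁻¹ * (a * z * a⁻¹) * a⁻¹⁻¹ = z := by group
  rwa [e] at h2

/-- The two-sided sums. -/
def two (g h : Γ) (K : ℕ) (T : Op Γ) : Op Γ :=
  ∑ k ∈ Finset.range K, lam (g ^ (k + 1)) * T * lam (h ^ (k + 1))

lemma two_add (g h : Γ) (K : ℕ) (S T : Op Γ) : two g h K (S + T) = two g h K S + two g h K T := by
  simp only [two, mul_add, add_mul, Finset.sum_add_distrib]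

lemma two_smul (g h : Γ) (K : ℕ) (r : ℝ) (T : Op Γ) : two g h K (r • T) = r • two g h K T := by
  simp only [two, mul_smul_comm, smul_mul_assoc, Finset.smul_sum]

lemma two_le (g h : Γ) (K : ℕ) (T : Op Γ) : ‖two g h K T‖ ≤ K * ‖T‖ := by
  refine (norm_sum_le _ _).trans ?_
  have : ∀ k ∈ Finset.range K, ‖lam (g ^ (k + 1)) * T * lam (h ^ (k + 1))‖ ≤ ‖T‖ := fun k _ => by
    calc _ ≤ ‖lam (g ^ (k + 1))‖ * ‖T‖ * ‖lam (h ^ (k + 1))‖ := norm_mul₃_le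
      _ ≤ 1 * ‖T‖ * 1 := by
          gcongr
          · exact opNorm_lam _
          · exact opNorm_lam _
      _ = ‖T‖ := by ring
  simpa using Finset.sum_le_card_nsmul _ _ _ this

lemma two_pol (hA : AvgStmt) (hG : CT G) (hι : Function.Injective ι) {w r : G} (hf : Far r w)
    {p : Op Γ} (hp : p ∈ Pol (ι.range : Set Γ)) :
    ∃ C : ℝ, 0 ≤ C ∧ ∀ K : ℕ, ‖two (ι w) (ι r) K p‖ ≤ C * √K := by
  induction hp using Submodule.span_induction with
  | mem T hT =>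
    obtain ⟨_, ⟨x, rfl⟩, rfl⟩ := hT
    refine ⟨2, by norm_num, fun K => ?_⟩
    have h1 := hA Γ (ι w) (ι (x * r * x⁻¹)) (free_map hG hι (hf x).symm) K
    have e : two (ι w) (ι r) K (lam (ι x)) =
        (∑ k ∈ Finset.range K, lam (ι w ^ (k + 1) * ι (x * r * x⁻¹) ^ (k + 1))) * lam (ι x) := by
      rw [two, Finset.sum_mul]
      refine Finset.sum_congr rfl fun k _ => ?_
      rw [← map_mul, ← map_mul, ← map_mul, map_mul ι, map_mul ι, map_inv, conj_pow]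
      congr 1
      group
    rw [e]
    calc _ ≤ _ := norm_mul_le _ _
      _ ≤ 2 * √K * 1 := by
          gcongr
          exact opNorm_lam _
      _ = _ := mul_one _
  | zero => exact ⟨0, le_rfl, fun K => by simp [two]⟩
  | add S T _ _ hS hT =>
    obtain ⟨C, hC, hS⟩ := hS
    obtain ⟨D, hD, hT⟩ := hT
    refine ⟨C + D, by positivity, fun K => ?_⟩
    rw [two_add, add_mul]
    exact (norm_add_le _ _).trans (add_le_add (hS K) (hT K))
  | smul a T _ hT =>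
    obtain ⟨C, hC, hT⟩ := hT
    refine ⟨|a| * C, by positivity, fun K => ?_⟩
    rw [two_smul, norm_smul, mul_assoc, Real.norm_eq_abs]
    exact mul_le_mul_of_nonneg_left (hT K) (abs_nonneg a)

lemma exists_sqrt (C : ℝ) {ε : ℝ} (hε : 0 < ε) : ∃ K : ℕ, K ≠ 0 ∧ C * (√K)⁻¹ ≤ ε := by
  obtain ⟨K, hK⟩ := exists_nat_gt ((C / ε) ^ 2)
  have h0 : (0 : ℝ) < K := lt_of_le_of_lt (sq_nonneg _) hK
  refine ⟨K, by exact_mod_cast h0.ne', ?_⟩
  have h1 : C / ε ≤ √K := Real.le_sqrt_of_sq_le hK.le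
  have h2 : 0 < √(K : ℝ) := Real.sqrt_pos.2 h0
  rw [← div_eq_mul_inv, div_le_iff₀ h2, mul_comm, ← div_le_iff₀ hε]
  exact h1

lemma two_small (hA : AvgStmt) (hG : CT G) (hι : Function.Injective ι) {w r : G} (hf : Far r w)
    {a : Op Γ} (ha : An ℓ ι.range a) {ε : ℝ} (hε : 0 < ε) :
    ∃ K : ℕ, K ≠ 0 ∧ ‖(K : ℝ)⁻¹ • two (ι w) (ι r) K a‖ ≤ ε := by
  obtain ⟨p, hp, hap⟩ := ha.approx (half_pos hε)
  obtain ⟨C, hC, h1⟩ := two_pol hA hG hι hf hp
  obtain ⟨K, hK, h2⟩ := exists_sqrt C (half_pos hε)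
  refine ⟨K, hK, ?_⟩
  have h0 : (0 : ℝ) < K := by exact_mod_cast Nat.pos_of_ne_zero hK
  have hs : 0 < √(K : ℝ) := Real.sqrt_pos.2 h0
  have e : two (ι w) (ι r) K a = two (ι w) (ι r) K (a - p) + two (ι w) (ι r) K p := by
    rw [← two_add, sub_add_cancel]
  have h3 : ‖two (ι w) (ι r) K a‖ ≤ K * (ε / 2) + C * √K := by
    rw [e]
    refine (norm_add_le _ _).trans (add_le_add ((two_le _ _ _ _).trans ?_) (h1 K))
    gcongr
  rw [norm_smul, Real.norm_eq_abs, abs_of_pos (inv_pos.2 h0)]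
  have h4 : (K : ℝ)⁻¹ * (C * √K) = C * (√K)⁻¹ := by
    field_simp
    rw [Real.sq_sqrt h0.le, mul_comm]
  calc _ ≤ (K : ℝ)⁻¹ * (K * (ε / 2) + C * √K) := by gcongr
    _ = ε / 2 + C * (√K)⁻¹ := by
        rw [mul_add, h4, ← mul_assoc, inv_mul_cancel₀ h0.ne', one_mul]
    _ ≤ ε := by linarith

/-- The average of the first positive powers. -/
def av (g : Γ) (K : ℕ) : Op Γ := (K : ℝ)⁻¹ • ∑ k ∈ Finset.range K, lam (g ^ (k + 1))

lemma av_an {L : Subgroup Γ} {g : Γ} (hg : g ∈ L) (K : ℕ) : An ℓ L (av g K) :=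
  An.smul _ (An.sum _ fun _ _ => An.of_lam (pow_mem hg _))

lemma av_quot {L : Subgroup Γ} {g : Γ} (hg : g ∈ L) {K : ℕ} (hK : K ≠ 0) :
    ∃ q, An ℓ L q ∧ 1 - av g K = (1 - lam g) * q := by
  obtain ⟨q, hq, e⟩ := exists_quot_avg (ℓ := ℓ) hg hK fun k => ((k + 1 : ℕ) : ℤ)
  refine ⟨q, hq, ?_⟩
  rw [← e]
  simp only [av, zpow_natCast]

lemma two_quot {L : Subgroup Γ} {g h : Γ} (hg : g ∈ L) (hh : h ∈ L) {a : Op Γ} (ha : An ℓ L a)
    (K : ℕ) : ∃ ζ, An ℓ L ζ ∧ a * av h K = (K : ℝ)⁻¹ • two g h K a + (1 - lam g) * ζ := by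
  have h1 : ∀ k : ℕ, ∃ q, An ℓ L q ∧ 1 - lam (g ^ (k + 1)) = (1 - lam g) * q := fun k => by
    obtain ⟨q, hq, e⟩ := exists_quot (ℓ := ℓ) hg ((k + 1 : ℕ) : ℤ)
    exact ⟨q, hq, by rw [← e, zpow_natCast]⟩
  choose q hq e using h1
  refine ⟨(K : ℝ)⁻¹ • ∑ k ∈ Finset.range K, q k * a * lam (h ^ (k + 1)),
    An.smul _ (An.sum _ fun k _ => ((hq k).mul' ha).mul' (An.of_lam (pow_mem hh _))), ?_⟩
  rw [av, two, mul_smul_comm, mul_smul_comm, ← smul_add, Finset.mul_sum, Finset.mul_sum,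
    ← Finset.sum_add_distrib]
  congr 1
  refine Finset.sum_congr rfl fun k _ => ?_
  rw [← mul_assoc, ← mul_assoc, ← e k]
  noncomm_ring

lemma root {z : G} (h1 : z ≠ 1) (h2 : ¬ NC z) : ∃ r, Cyc r ∧ z ∈ Subgroup.zpowers r := by
  by_contra h
  exact h2 ⟨h1, fun w hw hz => h ⟨w, hw, hz⟩⟩

lemma qr_step (hA : AvgStmt) (hG : CT G) (hι : Function.Injective ι) {w r : G} (hf : Far r w)
    {β γ : G → Op Γ} (hβ : Z0 ℓ ι.range ι β) (hγ : Z0 ℓ ι.range ι γ) (hw : β w = 1)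
    (hr : γ r = 1) : ∃ β', Z0 ℓ ι.range ι β' ∧ β' w = 1 ∧ In ℓ ι.range ι β' r ∧
      ∀ z, In ℓ ι.range ι β z → In ℓ ι.range ι γ z → In ℓ ι.range ι β' z := by
  have hb := hβ.an r
  have ha := hγ.an w
  have hpos : 0 < (‖β r‖ + 1)⁻¹ := by positivity
  obtain ⟨K, hK, hs⟩ := two_small hA hG hι hf ha hpos
  obtain ⟨ζ, hζ, e1⟩ := two_quot (mem_range ι w) (mem_range ι r) ha K
  obtain ⟨q, hq, e2⟩ := av_quot (ℓ := ℓ) (mem_range ι r) hK
  have hT : An ℓ ι.range (((K : ℝ)⁻¹ • two (ι w) (ι r) K (γ w)) * β r) := by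
    refine An.mul' (An.smul _ (An.sum _ fun k _ => ?_)) hb
    exact ((An.of_lam (pow_mem (mem_range ι w) _)).mul' ha).mul'
      (An.of_lam (pow_mem (mem_range ι r) _))
  have hn : ‖((K : ℝ)⁻¹ • two (ι w) (ι r) K (γ w)) * β r‖ < 1 := by
    calc _ ≤ _ := norm_mul_le _ _
      _ ≤ (‖β r‖ + 1)⁻¹ * ‖β r‖ := by gcongr
      _ < 1 := by
          rw [inv_mul_lt_iff₀ (by positivity)]
          linarith
  obtain ⟨R, hR, e3⟩ := hT.inv hn
  have hΨ : An ℓ ι.range (av (ι r) K * β r) := (av_an (mem_range ι r) K).mul' hb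
  have hζ' : An ℓ ι.range (ζ * β r) := hζ.mul' hb
  refine ⟨fun x => (β x - γ x * (av (ι r) K * β r) + inn ι (ζ * β r) x) * R,
    ((hβ.sub (hγ.mul hΨ)).add (z0_inn (mem_range ι) hζ')).mul hR, ?_, ?_, fun z h1 h2 => ?_⟩
  · show (β w - γ w * (av (ι r) K * β r) + inn ι (ζ * β r) w) * R = 1
    rw [← e3, hw, ← mul_assoc (γ w), e1, inn]
    congr 1
    noncomm_ring
  · refine In.mul (In.add (β := fun x => β x - γ x * (av (ι r) K * β r)) ?_ (in_inn hζ' r)) hR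
    refine ⟨q * β r, hq.mul' hb, ?_⟩
    show β r - γ r * (av (ι r) K * β r) = _
    rw [hr, ← mul_assoc (1 - lam (ι r)), ← e2]
    noncomm_ring
  · exact In.mul (In.add (In.sub h1 (In.mul h2 hΨ)) (in_inn hζ' z)) hR

lemma qr_aux (hA : AvgStmt) (hG : CT G) (h0 : Q0 G) (hι : Function.Injective ι) (n : ℕ) :
    ∀ (w : G) (zs : List G), zs.length ≤ n → Cyc w → (∀ z ∈ zs, Far z w) →
      ∃ β, Z0 ℓ ι.range ι β ∧ β w = 1 ∧ ∀ z ∈ zs, In ℓ ι.range ι β z := by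
  classical
  induction n with
  | zero =>
    intro w zs hl hw _
    obtain ⟨β, hβ, e⟩ := h0 Γ ℓ ι hι w hw
    rw [List.length_eq_zero_iff.1 (Nat.le_zero.1 hl)]
    exact ⟨β, hβ, e, by simp⟩
  | succ n ih =>
    intro w zs hl hw hf
    cases zs with
    | nil =>
      obtain ⟨β, hβ, e⟩ := h0 Γ ℓ ι hι w hw
      exact ⟨β, hβ, e, by simp⟩
    | cons z zs =>
      have hl' : zs.length ≤ n := by simpa using hl
      have hz : Far z w := hf z List.mem_cons_self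
      obtain ⟨β, hβ, e, hi⟩ := ih w zs hl' hw fun y hy => hf y (List.mem_cons_of_mem _ hy)
      by_cases hn : NC z
      · refine ⟨β, hβ, e, fun y hy => ?_⟩
        rcases List.mem_cons.1 hy with rfl | hy
        · exact hβ.nc _ hn
        · exact hi y hy
      obtain ⟨r, hr, hzr⟩ := root hz.ne_one hn
      obtain ⟨γ, hγ, e', hi'⟩ := ih r (zs.filter fun y => Far y r)
        ((List.length_filter_le _ _).trans hl') hr fun y hy => by
          simpa using (List.mem_filter.1 hy).2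
      obtain ⟨β', hβ', e1, h1, h2⟩ := qr_step hA hG hι (hz.root hzr) hβ hγ e e'
      refine ⟨β', hβ', e1, fun y hy => ?_⟩
      rcases List.mem_cons.1 hy with rfl | hy
      · exact In.of_mem hβ'.co h1 hzr
      by_cases hyr : Far y r
      · exact h2 y (hi y hy) (hi' y (List.mem_filter.2 ⟨hy, by simpa using hyr⟩))
      · exact back hβ' hr h1 hyr

/-- `1 - x` is not a left multiple of `1 - g` unless `x` is a power of `g`. -/
lemma not_mul {g x : Γ} (hg : InfOrd g) (hx : x ∉ Subgroup.zpowers g) (T : Op Γ) :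
    T * (1 - lam g) ≠ 1 - lam x := by
  intro h
  obtain ⟨K, hK, h1⟩ := exists_sqrt (2 * ‖T‖) (ε := 1 / 2) (by norm_num)
  have h0 : (0 : ℝ) < K := by exact_mod_cast Nat.pos_of_ne_zero hK
  have hs : 0 < √(K : ℝ) := Real.sqrt_pos.2 h0
  have hn : ‖av g K (dl 1)‖ = (√K)⁻¹ := norm_avg hg hK 1
  have hsupp : Supp (Subgroup.zpowers g : Set Γ) (av g K (dl 1)) :=
    (av_an (ℓ := fun _ => 0) (Subgroup.mem_zpowers g) K).supp
  have hsupp' : Supp (Subgroup.zpowers g : Set Γ)ᶜ (lam x (av g K (dl 1))) :=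
    supp_lam x hsupp fun y hy hxy => hx ((Subgroup.mul_mem_cancel_right _ hy).1 hxy)
  have horth : ⟪av g K (dl 1), lam x (av g K (dl 1))⟫_ℂ = 0 :=
    inner_eq_zero_of_supp hsupp hsupp' disjoint_compl_right
  have e1 : (1 - lam g) * av g K = (K : ℝ)⁻¹ • (lam g - lam (g ^ (K + 1))) := by
    rw [av, mul_smul_comm]
    congr 1
    simp only [map_pow, pow_succ' (lam g : Op Γ)]
    rw [← Finset.mul_sum, ← mul_assoc, sub_mul, one_mul, ← mul_one_sub, mul_assoc,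
      mul_neg_geom_sum, mul_one_sub]
  have h2 : ‖((1 - lam g) * av g K) (dl 1)‖ ≤ (K : ℝ)⁻¹ * 2 := by
    rw [e1, smul_apply, norm_smul, Real.norm_eq_abs,
      abs_of_pos (inv_pos.2 h0), sub_apply]
    gcongr
    refine (norm_sub_le _ _).trans ?_
    rw [lam_norm, lam_norm, norm_dl]
    norm_num
  have h3 : ⟪av g K (dl 1), T (((1 - lam g) * av g K) (dl 1))⟫_ℂ =
      ⟪av g K (dl 1), av g K (dl 1)⟫_ℂ := by
    rw [mul_ap, ← mul_ap T, h, sub_apply, inner_sub_right, horth, sub_zero,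
      one_ap]
  have h4 := norm_inner_le_norm (𝕜 := ℂ) (av g K (dl 1)) (T (((1 - lam g) * av g K) (dl 1)))
  rw [h3, inner_self_eq_norm_sq_to_K, norm_pow, RCLike.norm_ofReal, abs_norm, hn, sq] at h4
  have h5 := le_of_mul_le_mul_left h4 (inv_pos.2 hs)
  have h6 : (√K)⁻¹ ≤ ‖T‖ * ((K : ℝ)⁻¹ * 2) :=
    h5.trans ((T.le_opNorm _).trans (mul_le_mul_of_nonneg_left h2 (norm_nonneg _)))
  have h7 : (K : ℝ)⁻¹ = (√K)⁻¹ * (√K)⁻¹ := by
    rw [← mul_inv, Real.mul_self_sqrt h0.le]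
  have h8 := inv_pos.2 hs
  rw [h7] at h6
  nlinarith

lemma add_step (hQ : QrStmt) (hG : CT G) (h0 : Q0 G) (hι : Function.Injective ι) (u : G)
    {v : G} (hv : v ≠ 1) (c : G) (zs : List G) {β : G → Op Γ} {ε : ℝ} (hε : 0 < ε)
    (hβ : Z0 ℓ ι.range ι β) (e : β v = 0) (hi : ∀ z ∈ zs, In ℓ ι.range ι β z) :
    ∃ β', Z0 ℓ ι.range ι β' ∧ β' v = 0 ∧ ‖β' u (dl 1) - β u (dl 1)‖ ≤ ε ∧
      In ℓ ι.range ι β' c ∧ ∀ z ∈ zs, In ℓ ι.range ι β' z := by
  classical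
  by_cases hc : In ℓ ι.range ι β c
  · exact ⟨β, hβ, e, by simpa using hε.le, hc, hi⟩
  have h1 : c ≠ 1 := fun h => hc (in_of_zero (by rw [h]; exact hβ.co.one))
  obtain ⟨r, hr, hcr⟩ := root h1 fun h => hc (hβ.nc c h)
  have hf : Far v r := by
    by_contra hf
    simp only [Far, not_forall, not_not] at hf
    obtain ⟨a, ha⟩ := hf
    have h2 := In.conj hβ.co (mem_range ι) hβ.an (in_of_zero e) a
    have h3 : a * v * a⁻¹ ≠ 1 := fun h => hv (by simpa using h)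
    exact hc (In.of_mem hβ.co (In.comm hβ.co h2 (inf_map hι (hG.tf _ h3)) ha.symm) hcr)
  obtain ⟨γ, hγ, e1, hi'⟩ := hQ G Γ ℓ ι r (v :: zs.filter fun y => Far y r) hG h0 hι hr
    fun y hy => by
      rcases List.mem_cons.1 hy with rfl | hy
      · exact hf
      · simpa using (List.mem_filter.1 hy).2
  obtain ⟨ξ, hξ, e2⟩ := hi' v List.mem_cons_self
  obtain ⟨K, hK, hs⟩ := exists_sqrt (‖γ u - inn ι ξ u‖ * ‖β r‖) hε
  obtain ⟨q, hq, e3⟩ := av_quot (ℓ := ℓ) (mem_range ι r) hK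
  have hb := hβ.an r
  have hΨ : An ℓ ι.range (av (ι r) K * β r) := (av_an (mem_range ι r) K).mul' hb
  have hβ' : Z0 ℓ ι.range ι fun x => β x - (γ x - inn ι ξ x) * (av (ι r) K * β r) :=
    hβ.sub ((hγ.sub (z0_inn (mem_range ι) hξ)).mul hΨ)
  have hir : In ℓ ι.range ι (fun x => β x - (γ x - inn ι ξ x) * (av (ι r) K * β r)) r := by
    refine ⟨q * β r + ξ * (av (ι r) K * β r), (hq.mul' hb).add (hξ.mul' hΨ), ?_⟩
    show β r - (γ r - inn ι ξ r) * (av (ι r) K * β r) = _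
    rw [mul_add, e1, inn, ← mul_assoc (1 - lam (ι r)) q, ← e3]
    noncomm_ring
  refine ⟨_, hβ', ?_, ?_, In.of_mem hβ'.co hir hcr, fun z hz => ?_⟩
  · show β v - (γ v - inn ι ξ v) * (av (ι r) K * β r) = 0
    rw [e, e2, inn, sub_self, zero_mul, sub_zero]
  · show ‖(β u - (γ u - inn ι ξ u) * (av (ι r) K * β r)) (dl 1) - β u (dl 1)‖ ≤ ε
    rw [sub_apply, sub_sub_cancel_left, norm_neg, mul_ap, mul_ap]
    have h2 := norm_mul_hat (av_an (ℓ := ℓ) (mem_range ι r) K).mem hb.mem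
    have h3 : ‖av (ι r) K (dl 1)‖ = (√K)⁻¹ := norm_avg (inf_map hι (hG.tf r hr.1)) hK 1
    rw [h3] at h2
    calc _ ≤ ‖γ u - inn ι ξ u‖ * ((√K)⁻¹ * ‖β r‖) :=
          ((γ u - inn ι ξ u).le_opNorm _).trans (mul_le_mul_of_nonneg_left h2 (norm_nonneg _))
      _ = ‖γ u - inn ι ξ u‖ * ‖β r‖ * (√K)⁻¹ := by ring
      _ ≤ ε := hs
  · by_cases hzr : Far z r
    · exact In.sub (hi z hz) (In.mul (In.sub (hi' z (List.mem_cons_of_mem _
        (List.mem_filter.2 ⟨hz, by simpa using hzr⟩))) (in_inn hξ z)) hΨ)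
    · exact back hβ' hr hir hzr

end Qsa

theorem qr (hA : AvgStmt) : QrStmt := fun _ _ _ _ _ _ w zs hG h0 hι hw hf =>
  Qsa.qr_aux hA hG h0 hι zs.length w zs le_rfl hw hf

theorem sep (hQ : QrStmt) : SepStmt := by
  intro G Γ _ _ ℓ ι w x zs hG h0 hι hw hf hx
  obtain ⟨β, hβ, e, hi⟩ := hQ G Γ ℓ ι w zs hG h0 hι hw hf
  have h1 : An ℓ ι.range (1 - lam (ι w)) := An.one.sub (An.of_lam (Qsa.mem_range ι w))
  refine ⟨fun y => β y * (1 - lam (ι w)) - inn ι 1 y,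
    (hβ.mul h1).sub (z0_inn (Qsa.mem_range ι) An.one), ?_, ?_, fun z hz => ?_⟩
  · show β w * (1 - lam (ι w)) - inn ι 1 w = 0
    rw [e, inn, one_mul, mul_one, sub_self]
  · show β x * (1 - lam (ι w)) - inn ι 1 x ≠ 0
    rw [inn, mul_one, sub_ne_zero]
    refine Qsa.not_mul (Qsa.inf_map hι (hG.tf w hw.1)) ?_ _
    rintro ⟨k, hk⟩
    have h2 : w ^ k = x := hι (by rw [map_zpow]; exact hk)
    exact hx (by rw [← h2]; exact (Commute.refl w).zpow_left k)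
  · exact In.sub (In.mul (hi z hz) h1) (in_inn An.one z)

theorem add (hQ : QrStmt) : AddStmt := by
  intro G Γ _ _ ℓ ι u v zs β ε hG h0 hι hv hε hβ e
  induction zs generalizing ε with
  | nil => exact ⟨β, hβ, e, by simpa using hε.le, by simp⟩
  | cons c zs ih =>
    obtain ⟨β₁, hβ₁, e₁, h₁, hi₁⟩ := ih (ε / 2) (half_pos hε)
    obtain ⟨β₂, hβ₂, e₂, h₂, hc, hi₂⟩ :=
      Qsa.add_step hQ hG h0 hι u hv c zs (half_pos hε) hβ₁ e₁ hi₁
    refine ⟨β₂, hβ₂, e₂, ?_, fun z hz => ?_⟩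
    · have := norm_sub_le_norm_sub_add_norm_sub (β₂ u (dl 1)) (β₁ u (dl 1)) (β u (dl 1))
      linarith
    · rcases List.mem_cons.1 hz with rfl | hz
      · exact hc
      · exact hi₂ z hz

end

end Pool.Agent.MP_494aff_an.Lf

end MrgPart0

-- ======== part 1: formerly Pool.Agent.MP_494aff_an.lf.Unit
section MrgPart1

/-! Cocycles with value one. -/

open Monoid

namespace Pool.Agent.MP_494aff_an.Lf

open Pool.Agent.MP_494aff_an.Pinch Pool.Agent.MP_494aff_an.Pinch.TowP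

noncomputable section

namespace Ux

open Qsa

variable {G Γ : Type} [Group G] [Group Γ] {ℓ : Γ → ℕ} {ι : G →* Γ}

lemma conj_pol (hA : AvgStmt) (hG : CT G) (hι : Function.Injective ι) {w : G} (hw : Cyc w)
    {Y : Set G} (hY : ∀ y ∈ Y, y ∈ Subgroup.zpowers w → y = 1) {p : Op Γ}
    (hp : p ∈ Pol (ι '' Y)) : ∃ C : ℝ, 0 ≤ C ∧ ∀ K : ℕ,
      ‖two (ι w)⁻¹ (ι w) K p - ((K : ℂ) * p (dl 1) 1) • (1 : Op Γ)‖ ≤ C * √K := by
  induction hp using Submodule.span_induction with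
  | mem T hT =>
    obtain ⟨_, ⟨y, hy, rfl⟩, rfl⟩ := hT
    refine ⟨2, by norm_num, fun K => ?_⟩
    by_cases h1 : y = 1
    · have e : two (ι w)⁻¹ (ι w) K (lam (ι y)) = (K : ℂ) • (1 : Op Γ) := by
        rw [two, Finset.sum_congr rfl (g := fun _ => (1 : Op Γ)) fun k _ => by
          rw [h1, map_one, map_one, mul_one, ← map_mul, inv_pow, inv_mul_cancel, map_one]]
        rw [Finset.sum_const, Finset.card_range, Nat.cast_smul_eq_nsmul]
      rw [e, lam_one, h1, map_one, dl_self, mul_one, sub_self, norm_zero]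
      positivity
    have h2 : w⁻¹ * (y * w * y⁻¹) ≠ y * w * y⁻¹ * w⁻¹ := fun h => by
      have h3 : Commute w⁻¹ (y * w * y⁻¹) := h
      exact h1 (hY y hy (hw.2 y (csa hG hw.1 (Commute.inv_left_iff.1 h3).symm.eq)))
    have h3 := hA Γ (ι w⁻¹) (ι (y * w * y⁻¹)) (free_map hG hι h2) K
    have e : two (ι w)⁻¹ (ι w) K (lam (ι y)) =
        (∑ k ∈ Finset.range K, lam (ι w⁻¹ ^ (k + 1) * ι (y * w * y⁻¹) ^ (k + 1))) * lam (ι y) := by
      rw [two, Finset.sum_mul]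
      refine Finset.sum_congr rfl fun k _ => ?_
      rw [← map_mul, ← map_mul, ← map_mul, map_mul ι, map_mul ι, map_inv, map_inv, conj_pow]
      congr 1
      group
    have h4 : (1 : Γ) ≠ ι y := fun h => h1 (hι (by rw [← h, map_one]))
    rw [e, lam_one, dl_ne h4, mul_zero, zero_smul, sub_zero]
    calc _ ≤ _ := norm_mul_le _ _
      _ ≤ 2 * √K * 1 := by
          gcongr
          exact opNorm_lam _
      _ = _ := mul_one _
  | zero => exact ⟨0, le_rfl, fun K => by simp [two]⟩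
  | add S T _ _ hS hT =>
    obtain ⟨C, hC, hS⟩ := hS
    obtain ⟨D, hD, hT⟩ := hT
    refine ⟨C + D, by positivity, fun K => ?_⟩
    rw [two_add, add_mul, add_apply, lp.coeFn_add, Pi.add_apply, mul_add, add_smul,
      add_sub_add_comm]
    exact (norm_add_le _ _).trans (add_le_add (hS K) (hT K))
  | smul a T _ hT =>
    obtain ⟨C, hC, hT⟩ := hT
    refine ⟨|a| * C, by positivity, fun K => ?_⟩
    rw [Qsa.two_smul, smul_apply, lp.coeFn_smul, Pi.smul_apply, mul_smul_comm, smul_assoc, ← smul_sub,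
      norm_smul, mul_assoc, Real.norm_eq_abs]
    exact mul_le_mul_of_nonneg_left (hT K) (abs_nonneg a)

lemma conj_small (hA : AvgStmt) (hG : CT G) (hι : Function.Injective ι) {w : G} (hw : Cyc w)
    {Y : Set G} (hY : ∀ y ∈ Y, y ∈ Subgroup.zpowers w → y = 1) {T : Op Γ}
    (hT : An ℓ (ι '' Y) T) {ε : ℝ} (hε : 0 < ε) : ∃ K : ℕ, K ≠ 0 ∧
      ‖(K : ℝ)⁻¹ • two (ι w)⁻¹ (ι w) K T - T (dl 1) 1 • (1 : Op Γ)‖ ≤ 3 * ε := by
  obtain ⟨p, hp, hap⟩ := hT.approx hε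
  obtain ⟨C, hC, h1⟩ := conj_pol hA hG hι hw hY hp
  obtain ⟨K, hK, h2⟩ := exists_sqrt C hε
  refine ⟨K, hK, ?_⟩
  have h0 : (0 : ℝ) < K := by exact_mod_cast Nat.pos_of_ne_zero hK
  have hs : 0 < √(K : ℝ) := Real.sqrt_pos.2 h0
  have e0 : two (ι w)⁻¹ (ι w) K T = two (ι w)⁻¹ (ι w) K (T - p) + two (ι w)⁻¹ (ι w) K p := by
    rw [← two_add, sub_add_cancel]
  have e1 : (K : ℝ)⁻¹ • (((K : ℂ) * p (dl 1) 1) • (1 : Op Γ)) = p (dl 1) 1 • (1 : Op Γ) := by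
    rw [← smul_assoc, Complex.real_smul, ← mul_assoc, Complex.ofReal_inv, Complex.ofReal_natCast,
      inv_mul_cancel₀ (by exact_mod_cast hK), one_mul]
  have e : (K : ℝ)⁻¹ • two (ι w)⁻¹ (ι w) K T - T (dl 1) 1 • (1 : Op Γ) =
      (K : ℝ)⁻¹ • two (ι w)⁻¹ (ι w) K (T - p) +
        (K : ℝ)⁻¹ • (two (ι w)⁻¹ (ι w) K p - ((K : ℂ) * p (dl 1) 1) • (1 : Op Γ)) -
        (T - p) (dl 1) 1 • (1 : Op Γ) := by
    rw [e0, smul_add, smul_sub, e1, sub_apply, lp.coeFn_sub, Pi.sub_apply, sub_smul]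
    abel
  have h3 : ‖(K : ℝ)⁻¹ • two (ι w)⁻¹ (ι w) K (T - p)‖ ≤ ε := by
    rw [norm_smul, Real.norm_eq_abs, abs_of_pos (inv_pos.2 h0), inv_mul_le_iff₀ h0]
    exact (two_le _ _ _ _).trans (by gcongr)
  have h4 : ‖(K : ℝ)⁻¹ • (two (ι w)⁻¹ (ι w) K p - ((K : ℂ) * p (dl 1) 1) • (1 : Op Γ))‖ ≤ ε := by
    rw [norm_smul, Real.norm_eq_abs, abs_of_pos (inv_pos.2 h0)]
    refine (mul_le_mul_of_nonneg_left (h1 K) (inv_pos.2 h0).le).trans (le_trans (le_of_eq ?_) h2)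
    field_simp
    rw [Real.sq_sqrt h0.le, mul_comm]
  have h5 : ‖(T - p) (dl 1) 1 • (1 : Op Γ)‖ ≤ ε := by
    have h6 := (T - p).le_opNorm (dl 1)
    rw [norm_dl, mul_one] at h6
    rw [norm_smul]
    calc _ ≤ ε * 1 := mul_le_mul ((norm_coef_le _ _).trans (h6.trans hap))
          ContinuousLinearMap.norm_id_le (norm_nonneg _) hε.le
      _ = ε := mul_one _
  rw [e]
  refine (norm_sub_le _ _).trans ?_
  have := norm_add_le ((K : ℝ)⁻¹ • two (ι w)⁻¹ (ι w) K (T - p))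
    ((K : ℝ)⁻¹ • (two (ι w)⁻¹ (ι w) K p - ((K : ℂ) * p (dl 1) 1) • (1 : Op Γ)))
  linarith

variable {A : Type} [Group A] {f : A →* G} {w : G} {n : ℕ} {p l : ℤ → G} {a : ℤ → A}

lemma per_zpow (h : Axis f w n p l a) (k j : ℤ) : p (j + k * n) = w ^ k * p j := by
  induction k using Int.induction_on with
  | zero => simp
  | succ k ih => rw [add_mul, one_mul, ← add_assoc, h.per, ih, ← mul_assoc, ← zpow_one_add, add_comm]
  | pred k ih =>
    have := h.per (j + (-(k : ℤ) - 1) * n)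
    rw [show j + (-(k : ℤ) - 1) * n + n = j + -(k : ℤ) * n by ring, ih] at this
    rw [eq_inv_mul_of_mul_eq this.symm]
    group

lemma value (h : Axis f w n p l a) {β : G → Op Γ} (hβ : Co ι β) {σ τ : ℤ → Op Γ}
    (hl : ∀ i, β (l i) = σ i - lam (ι (l i)) * τ i) (m : ℕ) :
    β (p m) = σ 0 - lam (ι (p m)) * σ m + ∑ i ∈ Finset.range m,
      lam (ι (p i * l i)) * (β (f (a i)) + lam (ι (f (a i))) * σ (i + 1) - τ i) := by
  induction m with
  | zero => simp [h.zero, hβ.one]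
  | succ m ih =>
    rw [Finset.sum_range_succ, Nat.cast_succ, h.step, hβ, hβ, ih, hl]
    simp only [map_mul]
    noncomm_ring

end Ux

theorem unit (hA : AvgStmt) : UnitStmt := by
  intro G Γ _ _ ℓ ι w β Y T ζ hG hι hw hβ hT hY h1 hζ e
  have hK := Qsa.mem_range ι
  have hT' : An ℓ ι.range T := hT.mono (by rintro _ ⟨y, _, rfl⟩; exact hK y)
  obtain ⟨t, ht⟩ : ∃ t : ℝ, T (dl 1) 1 = t :=
    ⟨(T (dl 1) 1).re, Complex.ext (by simp) (by simpa using hT.real 1)⟩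
  have ht0 : t ≠ 0 := fun h => h1 (by rw [ht, h, Complex.ofReal_zero])
  have hp : 0 < |t| := abs_pos.2 ht0
  obtain ⟨K, hK0, hs⟩ := Ux.conj_small hA hG hι hw hY hT (ε := |t| / 4) (by positivity)
  obtain ⟨ζ', hζ', e1⟩ := Qsa.two_quot (inv_mem (hK w)) (hK w) hT' K
  have hav := Qsa.av_an (ℓ := ℓ) (hK w) K
  have hinv : An ℓ ι.range (lam (ι w)⁻¹) := An.of_lam (inv_mem (hK w))
  have hU : An ℓ ι.range ((K : ℝ)⁻¹ • Qsa.two (ι w)⁻¹ (ι w) K T) :=
    An.smul _ (An.sum _ fun k _ => ((An.of_lam (pow_mem (inv_mem (hK w)) _)).mul' hT').mul'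
      (An.of_lam (pow_mem (hK w) _)))
  generalize (K : ℝ)⁻¹ • Qsa.two (ι w)⁻¹ (ι w) K T = U at hs e1 hU
  have hn : ‖1 - t⁻¹ • U‖ < 1 := by
    have e2 : 1 - t⁻¹ • U = -(t⁻¹ • (U - (t : ℂ) • (1 : Op Γ))) := by
      rw [smul_sub, ← smul_assoc t⁻¹, Complex.real_smul, ← Complex.ofReal_mul, inv_mul_cancel₀ ht0,
        Complex.ofReal_one, one_smul, neg_sub]
    rw [e2, norm_neg, norm_smul, norm_inv, Real.norm_eq_abs, inv_mul_lt_iff₀ hp, ← ht]
    linarith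
  obtain ⟨R, hR, e3⟩ := (An.one.sub (hU.smul t⁻¹)).inv hn
  refine ⟨fun x => ((β x - inn ι ζ x) * Qsa.av (ι w) K + inn ι (lam (ι w)⁻¹ * ζ') x) * (t⁻¹ • R),
    (((hβ.sub (z0_inn hK hζ)).mul hav).add (z0_inn hK (hinv.mul' hζ'))).mul (hR.smul _), ?_⟩
  show ((β w - inn ι ζ w) * Qsa.av (ι w) K + inn ι (lam (ι w)⁻¹ * ζ') w) * (t⁻¹ • R) = 1
  have e4 : (1 - lam (ι w)) * (lam (ι w)⁻¹ * ζ') = -((1 - lam (ι w)⁻¹) * ζ') := by
    rw [sub_mul, sub_mul, ← mul_assoc (lam (ι w)), ← map_mul, mul_inv_cancel, map_one, one_mul,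
      one_mul, neg_sub]
  rw [inn, inn, e, add_sub_cancel_right, e1, e4, add_neg_cancel_right, mul_smul_comm,
    ← smul_mul_assoc, ← e3, sub_sub_cancel]

theorem axis (hU : UnitStmt) : AxisStmt := by
  intro A G Γ _ _ _ ℓ ι f w n p l a β σ τ i₀ hG hι hw hax hβ hl hσ hσ0 hμ h0 h1 hne
  have hK := Qsa.mem_range ι
  lift i₀ to ℕ using h0
  have h1' : i₀ < n := by exact_mod_cast h1
  set μ : ℤ → Op Γ := fun i => β (f (a i)) + lam (ι (f (a i))) * σ (i + 1) - τ i with hμd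
  have hμ' : ∀ i, An ℓ (ι.comp f).range (μ i) := hμ
  obtain ⟨z, hz⟩ : ∃ z, μ i₀ (dl 1) z ≠ 0 := by
    by_contra h
    push Not at h
    exact hne (LL_ext (hμ' i₀).mem (zero_mem _) (lp.ext (funext h)))
  obtain ⟨x, rfl⟩ : z ∈ (ι.comp f).range := by
    by_contra h
    exact hz ((hμ' i₀).supp z h)
  have hw' : p n = w := by simpa [hax.zero] using hax.per 0
  have hv := Ux.value hax hβ.co hl n
  rw [hw', hσ] at hv
  have hg : An ℓ ι.range (lam (ι (p i₀ * l i₀ * f x)⁻¹)) := An.of_lam (hK _)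
  refine hU G Γ ℓ ι w (fun y => β y * lam (ι (p i₀ * l i₀ * f x)⁻¹))
    {y | ∃ i : ℕ, i < n ∧ ∃ b, y = p i * l i * f b * (p i₀ * l i₀ * f x)⁻¹}
    (∑ i ∈ Finset.range n, lam (ι (p i * l i)) * μ i * lam (ι (p i₀ * l i₀ * f x)⁻¹))
    (σ 0 * lam (ι (p i₀ * l i₀ * f x)⁻¹)) hG hι hw (hβ.mul hg) ?_ ?_ ?_ (hσ0.mul' hg) ?_
  · refine An.sum _ fun i hi => ?_
    refine An.mul (X := {y | ∃ b, y = ι (p i * l i * f b)}) (An.mul (An.of_lam (Set.mem_singleton _))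
      (hμ' i) ?_) (An.of_lam (Set.mem_singleton _)) ?_
    · rintro _ rfl _ ⟨b, rfl⟩
      exact ⟨b, (map_mul ι _ _).symm⟩
    · rintro _ ⟨b, rfl⟩ _ rfl
      exact ⟨_, ⟨i, Finset.mem_range.1 hi, b, rfl⟩, map_mul ι _ _⟩
  · rintro _ ⟨i, hi, b, rfl⟩ ⟨k, hk⟩
    have hk' : w ^ k = p i * l i * f b * (p i₀ * l i₀ * f x)⁻¹ := hk
    have e1 := hax.step (i₀ + k * n)
    rw [add_right_comm, Ux.per_zpow hax, hax.step, hk'] at e1
    have e2 : (i : ℤ) = i₀ + k * n := hax.sep _ _ ⟨b * x⁻¹ * a i₀ * (a (i₀ + k * n))⁻¹, by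
      rw [eq_mul_inv_of_mul_eq e1.symm]
      simp only [map_mul, map_inv]
      group⟩
    have hi' : (i : ℤ) < n := by exact_mod_cast hi
    have hk0 : k = 0 := by
      rcases lt_trichotomy k 0 with h | h | h
      · nlinarith
      · exact h
      · nlinarith
    rw [← hk', hk0, zpow_zero]
  · have e1 : ∀ i : ℕ, (lam (ι (p i * l i)) * μ i * lam (ι (p i₀ * l i₀ * f x)⁻¹)) (dl 1) 1 =
        μ i (dl 1) (ι ((p i * l i)⁻¹ * (p i₀ * l i₀ * f x))) := fun i => by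
      rw [mul_ap, mul_ap, lam_one, lam_coef, LL_coef (hμ' i).mem]
      simp only [map_mul, map_inv, mul_one, inv_inv]
    rw [sum_apply, lp.coeFn_sum, Finset.sum_apply, Finset.sum_congr rfl fun i _ => e1 i,
      Finset.sum_eq_single_of_mem i₀ (Finset.mem_range.2 h1') fun i _ hi => ?_]
    · rwa [inv_mul_cancel_left]
    · refine (hμ' i).supp _ ?_
      rintro ⟨b, hb⟩
      have h2 : f b = (p i * l i)⁻¹ * (p i₀ * l i₀ * f x) := hι hb
      refine hi (Int.ofNat_inj.1 (hax.sep i i₀ ⟨b * x⁻¹, ?_⟩))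
      rw [map_mul, map_inv, h2]
      group
  · show β w * _ = _
    rw [hv, add_mul, Finset.sum_mul, add_comm, ← mul_assoc, sub_mul 1, one_mul]

end

end Pool.Agent.MP_494aff_an.Lf

end MrgPart1

-- marker of a merged file
example : 731051 + 687438 = 731051 + 687438 := rfl

end MrgPart1

-- ======== part 2: formerly Pool.Agent.MP_494aff_an.rg.Hxs
section MrgPart2

-- ======== part 0: formerly Pool.Agent.MP_494aff_an.rg.Spec
section MrgPart0

/-! Rigidity of subgroups: groupoid cocycles and separated actions. -/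

open scoped InnerProductSpace ComplexConjugate

namespace Pool.Agent.MP_494aff_an.Rg

open Pool.Agent.MP_494aff_an.Pinch Pool.Agent.MP_494aff_an.Pinch.TowP Pool.Agent.MP_494aff_an.Lf
open Pool.Agent.MP_494aff_an.Se

noncomputable section

section Defs

variable {K G Ξ κ μ Ω : Type} [Group K] [Group G]

/-- No torsion. -/
def TF (G : Type) [Group G] : Prop := ∀ g : G, g ≠ 1 → InfOrd g

/-- The arrows generated by a family of arrows `(source, label, target)`. -/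
inductive Gn (a : κ → Ξ × K × Ξ) : Ξ → K → Ξ → Prop
  | one (x : Ξ) : Gn a x 1 x
  | fwd (i : κ) (x : Ξ) (g : K) : Gn a x g (a i).1 → Gn a x ((a i).2.1 * g) (a i).2.2
  | bwd (i : κ) (x : Ξ) (g : K) : Gn a x g (a i).2.2 → Gn a x ((a i).2.1⁻¹ * g) (a i).1

/-- Cocycles on the generated groupoid. -/
def Gc (ι : K →* G) (a : κ → Ξ × K × Ξ) (c : Ξ → K → Ξ → H G) : Prop :=
  ∀ x g y h z, Gn a x g y → Gn a y h z → c x (h * g) z = c y h z + lam (ι h) (c x g y)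

/-- The values of groupoid cocycles on the family. -/
def Zg (ι : K →* G) (a : κ → Ξ × K × Ξ) : Submodule ℂ (κ → H G) where
  carrier := {η | ∃ c, Gc ι a c ∧ ∀ i, c (a i).1 (a i).2.1 (a i).2.2 = η i}
  zero_mem' := ⟨fun _ _ _ => 0, fun _ _ _ _ _ _ _ => by simp, fun _ => rfl⟩
  add_mem' := by
    rintro _ _ ⟨c, h, e⟩ ⟨c', h', e'⟩
    refine ⟨fun x g y => c x g y + c' x g y, fun x g y k z p q => ?_, fun k => by simp [e, e']⟩
    simp only [h x g y k z p q, h' x g y k z p q, map_add]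
    abel
  smul_mem' := by
    rintro s _ ⟨c, h, e⟩
    refine ⟨fun x g y => s • c x g y, fun x g y k z p q => ?_, fun k => by simp [e]⟩
    simp only [h x g y k z p q, map_smul, smul_add]

/-- The groupoid cocycle of a group cocycle and a potential. -/
def pv (ι : K →* G) (c : K → H G) (φ : Ξ → H G) (s : Ξ × K × Ξ) : H G :=
  c s.2.1 + lam (ι s.2.1) (φ s.1) - φ s.2.2

/-- Groupoid cocycles that come from the group. -/
def Ph (ι : K →* G) (a : κ → Ξ × K × Ξ) : Submodule ℂ (κ → H G) where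
  carrier := {η | ∃ c φ, Cy ι c ∧ ∀ i, pv ι c φ (a i) = η i}
  zero_mem' := ⟨fun _ => 0, fun _ => 0, fun _ _ => by simp, fun _ => by simp [pv]⟩
  add_mem' := by
    rintro _ _ ⟨c, φ, h, e⟩ ⟨c', φ', h', e'⟩
    refine ⟨fun x => c x + c' x, fun x => φ x + φ' x, fun x y => ?_, fun k => ?_⟩
    · simp only [h x y, h' x y, map_add]
      abel
    · simp only [Pi.add_apply, ← e, ← e', pv, map_add]
      abel
  smul_mem' := by
    rintro s _ ⟨c, φ, h, e⟩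
    refine ⟨fun x => s • c x, fun x => s • φ x, fun x y => ?_, fun k => ?_⟩
    · simp only [h x y, map_smul, smul_add]
    · simp only [Pi.smul_apply, ← e, pv, map_smul, smul_add, smul_sub]

/-- Coboundaries. -/
def Ph0 (ι : K →* G) (a : κ → Ξ × K × Ξ) : Submodule ℂ (κ → H G) where
  carrier := {η | ∃ φ, ∀ i, pv ι (fun _ => 0) φ (a i) = η i}
  zero_mem' := ⟨fun _ => 0, fun _ => by simp [pv]⟩
  add_mem' := by
    rintro _ _ ⟨φ, e⟩ ⟨φ', e'⟩
    refine ⟨fun x => φ x + φ' x, fun k => ?_⟩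
    simp only [Pi.add_apply, ← e, ← e', pv, map_add]
    abel
  smul_mem' := by
    rintro s _ ⟨φ, e⟩
    refine ⟨fun x => s • φ x, fun k => ?_⟩
    simp only [Pi.smul_apply, ← e, pv, map_smul, smul_add, smul_sub, smul_zero]

/-- Equivariant maps to affine spaces. -/
def Af (ι : K →* G) (y : μ → K) (a : κ → Ξ × K × Ξ) : Submodule ℂ (μ ⊕ Ξ → H G) where
  carrier := {η | ∃ c, Cy ι c ∧ (∀ m, c (y m) = η (Sum.inl m)) ∧
    ∀ i, pv ι c (fun x => η (Sum.inr x)) (a i) = 0}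
  zero_mem' := ⟨fun _ => 0, fun _ _ => by simp, fun _ => rfl, fun _ => by simp [pv]⟩
  add_mem' := by
    rintro η η' ⟨c, h, e, p⟩ ⟨c', h', e', p'⟩
    refine ⟨fun x => c x + c' x, fun x y => ?_, fun k => by simp [e, e'], fun i => ?_⟩
    · simp only [h x y, h' x y, map_add]
      abel
    · have := congrArg₂ (· + ·) (p i) (p' i)
      simp only [pv, add_zero] at this
      simp only [pv, Pi.add_apply, map_add, ← this]
      abel
  smul_mem' := by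
    rintro s η ⟨c, h, e, p⟩
    refine ⟨fun x => s • c x, fun x y => ?_, fun k => by simp [e], fun i => ?_⟩
    · simp only [h x y, map_smul, smul_add]
    · have := congrArg (s • ·) (p i)
      simp only [pv, smul_zero, smul_add, smul_sub] at this
      simp only [pv, Pi.smul_apply, map_smul, this]

/-- The inner product of two families. -/
def ip [Fintype κ] (ζ η : κ → H G) : ℂ := ∑ i, ⟪ζ i, η i⟫_ℂ

/-- Functions of finite energy. -/
def DD (σ : K →* Equiv.Perm Ω) (f : Ω → ℝ) : Prop :=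
  ∀ ω ω', Summable fun k : K => (f (σ k ω) - f (σ k ω')) ^ 2

/-- Functions of finite energy separate points. -/
def Sep (σ : K →* Equiv.Perm Ω) : Prop := ∀ ω ω' : Ω, ω ≠ ω' → ∃ f, DD σ f ∧ f ω ≠ f ω'

/-- The arrows lie over the action. -/
def Over (σ : K →* Equiv.Perm Ω) (π : Ξ → Ω) (a : κ → Ξ × K × Ξ) : Prop :=
  ∀ i, σ (a i).2.1 (π (a i).1) = π (a i).2.2

/-- All arrows over the action are generated. -/
def Cmp (σ : K →* Equiv.Perm Ω) (π : Ξ → Ω) (a : κ → Ξ × K × Ξ) : Prop :=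
  ∀ x g y, σ g (π x) = π y → Gn a x g y

open Classical in
/-- The difference vector of `f` on the coset of `x`. -/
def bf (ι : K →* G) (σ : K →* Equiv.Perm Ω) (f : Ω → ℝ) (x : G) (ω ω' : Ω) : H G :=
  if h : ∃ ξ : H G, (∀ k, ξ (ι k * x) = ((f (σ k⁻¹ ω) - f (σ k⁻¹ ω') : ℝ) : ℂ)) ∧
    ∀ z, (∀ k, z ≠ ι k * x) → ξ z = 0 then h.choose else 0

/-- The difference vectors with base point `ω`. -/
def bv (ι : K →* G) (σ : K →* Equiv.Perm Ω) (f : Ω → ℝ) (x : G) (ω ω₁ : Ω) (π : Ξ → Ω) :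
    Unit ⊕ Ξ → H G :=
  Sum.elim (fun _ => bf ι σ f x ω₁ ω) fun ξ => bf ι σ f x (π ξ) ω

/-- Translations. -/
def tv (Ξ : Type) (w : G) (v : H G) : Unit ⊕ Ξ → H G :=
  Sum.elim (fun _ => v - lam w v) fun _ => v

end Defs

/-- Every finite family of arrows over a separated action lies in an independent one. -/
def PP (K : Type) [Group K] : Prop :=
  ∀ (G Ω Ξ₀ κ₀ : Type) [Group G] [Fintype Ξ₀] [Fintype κ₀] (ι : K →* G) (σ : K →* Equiv.Perm Ω)
    (π₀ : Ξ₀ → Ω) (a₀ : κ₀ → Ξ₀ × K × Ξ₀), TF G → Function.Injective ι → Sep σ →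
    Function.Injective π₀ → Over σ π₀ a₀ →
    ∃ (Ξ κ : Type) (_ : Fintype Ξ) (_ : Fintype κ) (π : Ξ → Ω) (j : Ξ₀ → Ξ) (a : κ → Ξ × K × Ξ),
      (∀ x, π (j x) = π₀ x) ∧ Over σ π a ∧
      (∀ i, Gn a (j (a₀ i).1) (a₀ i).2.1 (j (a₀ i).2.2)) ∧ dim (Zg ι a) ≤ dim (Ph ι a)

structure GcStmt : Prop where
  trans : ∀ (K Ξ κ : Type) [Group K] (a : κ → Ξ × K × Ξ) x g y h z,
    Gn a x g y → Gn a y h z → Gn a x (h * g) z
  symm : ∀ (K Ξ κ : Type) [Group K] (a : κ → Ξ × K × Ξ) x g y, Gn a x g y → Gn a y g⁻¹ x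
  inv_z : ∀ (K G Ξ κ : Type) [Group K] [Group G] [Fintype κ] (ι : K →* G) (a : κ → Ξ × K × Ξ),
    Se.Inv (Zg ι a)
  ev : ∀ (K G Ξ κ : Type) [Group K] [Group G] [Fintype κ] (ι : K →* G) (a : κ → Ξ × K × Ξ) x g y,
    Gn a x g y → ∃ T : (κ → H G) →L[ℂ] H G, (∀ h η, T (fun i => rho h (η i)) = rho h (T η)) ∧
      ∀ c, Gc ι a c → c x g y = T fun i => c (a i).1 (a i).2.1 (a i).2.2
  le : ∀ (K G Ξ κ : Type) [Group K] [Group G] (ι : K →* G) (a : κ → Ξ × K × Ξ),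
    Ph0 ι a ≤ Ph ι a ∧ Ph ι a ≤ Zg ι a
  inv_ph : ∀ (K G Ξ κ : Type) [Group K] [Group G] (ι : K →* G) (a : κ → Ξ × K × Ξ),
    Se.Inv (Ph ι a).topologicalClosure
  af_gn : ∀ (K G Ξ κ : Type) [Group K] [Group G] (ι : K →* G) (a : κ → Ξ × K × Ξ) c φ,
    Cy ι c → (∀ i, pv ι c φ (a i) = 0) → ∀ x g y, Gn a x g y → pv ι c φ (x, g, y) = 0
  af : ∀ (K G Ξ κ μ : Type) [Group K] [Group G] [Fintype Ξ] [Fintype κ] [Fintype μ] (ι : K →* G)
    (y : μ → K) (a : κ → Ξ × K × Ξ), Subgroup.closure (Set.range y) = ⊤ →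
    Se.Inv (Af ι y a) ∧ dim (Ph ι a) + dim (Af ι y a) = dim (Zc ι y) + Fintype.card Ξ
  orth : ∀ (G κ : Type) [Group G] [Fintype κ] (W W' : Submodule ℂ (κ → H G)), W ≤ W' →
    IsClosed (W' : Set (κ → H G)) → (∀ ζ ∈ W', (∀ η ∈ W, ip ζ η = 0) → ζ = 0) →
    W.topologicalClosure = W'
  cmp : ∀ (C Ω Ξ : Type) [Group C] [Fintype Ξ] (c : C) (σ : C →* Equiv.Perm Ω) (π : Ξ → Ω),
    (∀ g, g ∈ Subgroup.zpowers c) →
    ∃ (κ : Type) (_ : Fintype κ) (a : κ → Ξ × C × Ξ), Over σ π a ∧ Cmp σ π a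

/-- Over an abelian group the coboundaries are dense. -/
def CobStmt : Prop :=
  ∀ (K G Ξ κ : Type) [Group K] [Group G] [Fintype Ξ] [Fintype κ] (ι : K →* G)
    (a : κ → Ξ × K × Ξ), TF G → Function.Injective ι → (∀ x y : K, x * y = y * x) →
    dim (Zg ι a) ≤ dim (Ph0 ι a)

def BumpStmt : Prop :=
  ∀ (K Ω : Type) [Group K] (σ : K →* Equiv.Perm Ω) (c : K) (L : Set Ω) (ω₀ : Ω), Sep σ →
    (c = 1 ∨ InfOrd c) → L.Finite → (∀ n : ℤ, σ (c ^ n) ω₀ = ω₀ → c ^ n = 1) →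
    ∃ f, DD σ f ∧ f ω₀ = 1 ∧ ∀ ω ∈ L, ∀ n : ℤ, σ (c ^ n) ω ≠ ω₀ → f (σ (c ^ n) ω) = 0

def BfStmt : Prop :=
  ∀ (K G Ω : Type) [Group K] [Group G] (ι : K →* G) (σ : K →* Equiv.Perm Ω) (f : Ω → ℝ) (x : G),
    Function.Injective ι → DD σ f →
    (∀ ω ω' k, bf ι σ f x ω ω' (ι k * x) = ((f (σ k⁻¹ ω) - f (σ k⁻¹ ω') : ℝ) : ℂ)) ∧
    (∀ ω ω' z, (∀ k, z ≠ ι k * x) → bf ι σ f x ω ω' z = 0) ∧
    (∀ ω ω' ω'', bf ι σ f x ω ω' + bf ι σ f x ω' ω'' = bf ι σ f x ω ω'') ∧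
    (∀ ω ω' k, lam (ι k) (bf ι σ f x ω ω') = bf ι σ f x (σ k ω) (σ k ω')) ∧
    ∀ ω ω' (ζ : H G), HasSum
      (fun k : K => conj (ζ (ι k * x)) * ((f (σ k⁻¹ ω) - f (σ k⁻¹ ω') : ℝ) : ℂ))
      ⟪ζ, bf ι σ f x ω ω'⟫_ℂ

/-- A summable function with zero sums over cosets has zero sum over unions of cosets. -/
def LoneStmt : Prop :=
  ∀ (A K : Type) [Group A] [Group K] (f : A →* K) (z : K → ℂ) (Y : Set K), Function.Injective f →
    Summable z → (∀ a, ∀ k ∈ Y, f a * k ∈ Y) → (∀ k, ∑' a, z (f a * k) = 0) →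
    ∑' k, Y.indicator z k = 0

def CutAStmt : Prop :=
  ∀ (A B K : Type) [Group A] [Group B] [Group K] (c : A) (d : B) (f : A →* K) (g : B →* K),
    Am c d f g → ∃ Y : Set K,
    (∀ a, ∀ k ∈ Y ∪ Subgroup.zpowers (f c), f a * k ∈ Y ∪ Subgroup.zpowers (f c)) ∧
    (∀ b, ∀ k ∈ Y, g b * k ∈ Y) ∧ ∀ k ∈ Y, k ∉ Subgroup.zpowers (f c)

def CutHStmt : Prop :=
  ∀ (A K : Type) [Group A] [Group K] (c c' : A) (f : A →* K) (t : K), Hx c c' f t → ∃ Y : Set K,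
    (∀ a, ∀ k ∈ Y, f a * k ∈ Y) ∧ (∀ k ∈ Subgroup.zpowers (f c), k ∈ Y ∧ t * k ∉ Y) ∧
    ∀ k, k ∉ Subgroup.zpowers (f c) → (k ∈ Y ↔ t * k ∈ Y)

/-- Density over a cyclic group. -/
def KeyStmt : Prop :=
  ∀ (C G Ω Ξ κ : Type) [Group C] [Group G] [Fintype Ξ] [Fintype κ] (c : C) (u : C →* G)
    (σ : C →* Equiv.Perm Ω) (π : Ξ → Ω) (a : κ → Ξ × C × Ξ) (ζ : Unit ⊕ Ξ → H G), TF G →
    (∀ g, g ∈ Subgroup.zpowers c) → Function.Injective u → Function.Injective π → Over σ π a →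
    Cmp σ π a → ζ ∈ Af u (fun _ : Unit => c) a → (∀ v, ip ζ (tv Ξ (u c) v) = 0) →
    (∀ ξ₀, (∀ g, σ g (π ξ₀) = π ξ₀ → g = 1) → ∃ f, DD σ f ∧ f (π ξ₀) = 1 ∧
      (∀ ξ g, σ g (π ξ) ≠ π ξ₀ → f (σ g (π ξ)) = 0) ∧
      ∀ x, ip ζ (bv u σ f x (π ξ₀) (σ c (π ξ₀)) π) = 0) → ζ = 0

/-- The generator of a cyclic subgroup. -/
def gz {K : Type} [Group K] (w : K) : Subgroup.zpowers w := ⟨w, Subgroup.mem_zpowers w⟩

def KeyAStmt : Prop :=
  ∀ (A B K G Ω Ξ κ : Type) [Group A] [Group B] [Group K] [Group G] [Fintype Ξ] [Fintype κ] (c : A)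
    (d : B) (f : A →* K) (g : B →* K) (ι : K →* G) (σ : K →* Equiv.Perm Ω) (π : Ξ → Ω)
    (a : κ → Ξ × Subgroup.zpowers (f c) × Ξ) (ζ : Unit ⊕ Ξ → H G), Am c d f g → TF G →
    Function.Injective ι → Sep σ → Function.Injective π →
    Over (σ.comp (Subgroup.subtype _)) π a → Cmp (σ.comp (Subgroup.subtype _)) π a →
    ζ ∈ Af (ι.comp (Subgroup.subtype _)) (fun _ : Unit => gz (f c)) a →
    (∀ v, ip ζ (tv Ξ (ι (f c)) v) = 0) →
    (∀ φ, DD (σ.comp f) φ → ∀ x ω, ip ζ (bv (ι.comp f) (σ.comp f) φ x ω (σ (f c) ω) π) = 0) →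
    (∀ φ, DD (σ.comp g) φ → ∀ x ω, ip ζ (bv (ι.comp g) (σ.comp g) φ x ω (σ (f c) ω) π) = 0) →
    ζ = 0

def KeyHStmt : Prop :=
  ∀ (A K G Ω Ξ κ : Type) [Group A] [Group K] [Group G] [Fintype Ξ] [Fintype κ] (c c' : A)
    (f : A →* K) (t : K) (ι : K →* G) (σ : K →* Equiv.Perm Ω) (π : Ξ → Ω)
    (a : κ → Ξ × Subgroup.zpowers (f c) × Ξ) (ζ : Unit ⊕ Ξ → H G), Hx c c' f t → TF G →
    Function.Injective ι → Sep σ → Function.Injective π →
    Over (σ.comp (Subgroup.subtype _)) π a → Cmp (σ.comp (Subgroup.subtype _)) π a →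
    ζ ∈ Af (ι.comp (Subgroup.subtype _)) (fun _ : Unit => gz (f c)) a →
    (∀ v, ip ζ (tv Ξ (ι (f c)) v) = 0) →
    (∀ φ, DD (σ.comp f) φ → ∀ x ω, ip ζ (bv (ι.comp f) (σ.comp f) φ x ω (σ (f c) ω) π) =
      ip ζ fun i => lam (ι t⁻¹)
        (bv (ι.comp f) (σ.comp f) φ x (σ t ω) (σ (t * f c) ω) (fun ξ => σ t (π ξ)) i)) →
    ζ = 0

def AmsStmt : Prop :=
  ∀ (A B K : Type) [Group A] [Group B] [Group K] (c : A) (d : B) (f : A →* K) (g : B →* K),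
    Am c d f g → Group.FG A → Group.FG B → PP A → PP B → PP K

def HxsStmt : Prop :=
  ∀ (A K : Type) [Group A] [Group K] (c c' : A) (f : A →* K) (t : K), Hx c c' f t → Group.FG A →
    PP A → PP K

/-- The closure of a subgroup is the stabiliser of a point in a separated action. -/
def CloStmt : Prop :=
  ∀ (K G : Type) [Group K] [Group G] (ι : K →* G) (L : Subgroup K), Function.Injective ι →
    ∃ (Ω : Type) (σ : K →* Equiv.Perm Ω) (ω₀ : Ω), Sep σ ∧ (∀ l ∈ L, σ l ω₀ = ω₀) ∧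
      ∀ c, Cy ι c → (∀ l ∈ L, c l = 0) → ∀ k, σ k ω₀ = ω₀ → c k = 0

/-- Density for the groupoid gives density for a vertex group. -/
def VtxStmt : Prop :=
  ∀ (K G Ξ κ ν : Type) [Group K] [Group G] [Fintype Ξ] [Fintype κ] [Fintype ν] (ι : K →* G)
    (a : κ → Ξ × K × Ξ) (x : Ξ) (P : Subgroup K) (y : ν → P), (∀ g, g ∈ P ↔ Gn a x g x) →
    dim (Zg ι a) ≤ dim (Ph ι a) →
    Zc (ι.comp P.subtype) y ≤ (Zc ι fun n => (y n : K)).topologicalClosure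

end

end Pool.Agent.MP_494aff_an.Rg

end MrgPart0

-- ======== part 1: formerly Pool.Agent.MP_494aff_an.rg.HxsA
section MrgPart1

/-! HNN extensions: groupoid cocycles and group cocycles. -/

namespace Pool.Agent.MP_494aff_an.Rg

open Pool.Agent.MP_494aff_an.Pinch Pool.Agent.MP_494aff_an.Pinch.TowP Pool.Agent.MP_494aff_an.Lf
open Pool.Agent.MP_494aff_an.Se

noncomputable section

namespace Hxs

variable {A C K G Ξ Ξ' κ κ' T μ Ω : Type} [Group A] [Group C] [Group K] [Group G]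

lemma gn_arr (a : κ → Ξ × K × Ξ) (i : κ) : Gn a (a i).1 (a i).2.1 (a i).2.2 := by
  have := Gn.fwd (a := a) i _ 1 (Gn.one _)
  rwa [mul_one] at this

lemma gn_map (hG : GcStmt) {a : κ → Ξ × A × Ξ} {b : κ' → Ξ × K × Ξ} (u : A →* K)
    (h : ∀ i, Gn b (a i).1 (u (a i).2.1) (a i).2.2) {x : Ξ} {g : A} {y : Ξ} (p : Gn a x g y) :
    Gn b x (u g) y := by
  induction p with
  | one x =>
    rw [map_one]
    exact Gn.one _
  | fwd i x g _ ih =>
    rw [map_mul]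
    exact hG.trans _ _ _ _ _ _ _ _ _ ih (h i)
  | bwd i x g _ ih =>
    rw [map_mul, map_inv]
    exact hG.trans _ _ _ _ _ _ _ _ _ ih (hG.symm _ _ _ _ _ _ _ (h i))

lemma gn_fin (hG : GcStmt) {b : κ → Ξ × K × Ξ} {x : Ξ} {g : K} {y : Ξ} (p : Gn b x g y) :
    ∃ F : Finset κ, ∀ (Ξ' κ' : Type) (a : κ' → Ξ' × K × Ξ') (J : Ξ → Ξ'),
      (∀ i ∈ F, Gn a (J (b i).1) (b i).2.1 (J (b i).2.2)) → Gn a (J x) g (J y) := by
  classical
  induction p with
  | one x => exact ⟨∅, fun _ _ _ _ _ => Gn.one _⟩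
  | fwd i x g _ ih =>
    obtain ⟨F, hF⟩ := ih
    exact ⟨insert i F, fun _ _ a J h => hG.trans _ _ _ _ _ _ _ _ _
      (hF _ _ a J fun k hk => h k (Finset.mem_insert_of_mem hk)) (h i (Finset.mem_insert_self _ _))⟩
  | bwd i x g _ ih =>
    obtain ⟨F, hF⟩ := ih
    exact ⟨insert i F, fun _ _ a J h => hG.trans _ _ _ _ _ _ _ _ _
      (hF _ _ a J fun k hk => h k (Finset.mem_insert_of_mem hk))
      (hG.symm _ _ _ _ _ _ _ (h i (Finset.mem_insert_self _ _)))⟩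

/-- All arrows with a label in the base group or the stable letter. -/
def al (f : A →* K) (t : K) (σ : K →* Equiv.Perm Ω) : (Ω × A) ⊕ Ω → Ω × K × Ω :=
  Sum.elim (fun p => (p.1, f p.2, σ (f p.2) p.1)) fun ω => (ω, t, σ t ω)

lemma gn_al (hG : GcStmt) {f : A →* K} {t : K}
    (gen : ∀ S : Subgroup K, (∀ p, f p ∈ S) → t ∈ S → ∀ z, z ∈ S) (σ : K →* Equiv.Perm Ω)
    (k : K) (ω : Ω) : Gn (al f t σ) ω k (σ k ω) := by
  let S : Subgroup K :=
    { carrier := {k | ∀ ω, Gn (al f t σ) ω k (σ k ω)}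
      one_mem' := fun ω => by
        rw [map_one]
        exact Gn.one _
      mul_mem' := fun {x y} hx hy ω => by
        rw [map_mul]
        exact hG.trans _ _ _ _ _ _ _ _ _ (hy ω) (hx _)
      inv_mem' := fun {x} hx ω => by
        have := hG.symm _ _ _ _ _ _ _ (hx (σ x⁻¹ ω))
        rwa [← Equiv.Perm.mul_apply, ← map_mul, mul_inv_cancel, map_one,
          Equiv.Perm.one_apply] at this }
  exact gen S (fun p ω => gn_arr (al f t σ) (Sum.inl (ω, p)))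
    (fun ω => gn_arr (al f t σ) (Sum.inr ω)) k ω

lemma lift_hom {f : A →* K} (hf : Function.Injective f) (u : C →* K) (h : ∀ γ, ∃ a, f a = u γ) :
    ∃ i : C →* A, ∀ γ, f (i γ) = u γ := by
  choose i hi using h
  exact ⟨MonoidHom.mk' i fun x y => hf (by rw [map_mul, hi, hi, hi, map_mul]), hi⟩

lemma ll (g h : G) (ξ : H G) : lam g (lam h ξ) = lam (g * h) ξ := by
  rw [map_mul]
  rfl

lemma l1 (ξ : H G) : lam (1 : G) ξ = ξ := by
  rw [map_one]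
  rfl

lemma lt (ι : K →* G) (t : K) (ξ : H G) : lam (ι t⁻¹) (lam (ι t) ξ) = ξ := by
  rw [ll, ← map_mul, inv_mul_cancel, map_one, l1]

lemma lc (ι : K →* G) (t k : K) (ξ : H G) :
    lam (ι t⁻¹) (lam (ι (t * k * t⁻¹)) ξ) = lam (ι k) (lam (ι t⁻¹) ξ) := by
  rw [ll, ll, ← map_mul, ← map_mul, mul_assoc, inv_mul_cancel_left]

lemma inv_top : Se.Inv (⊤ : Submodule ℂ (κ → H G)) := ⟨isClosed_univ, fun _ _ _ => trivial⟩

/-- The arrows of the extension. -/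
def ext (f : A →* K) (t : K) (aA : κ → Ξ × A × Ξ) (j j' : T → Ξ) : κ ⊕ T → Ξ × K × Ξ :=
  Sum.elim (fun i => ((aA i).1, f (aA i).2.1, (aA i).2.2)) fun x => (j x, t, j' x)

lemma gn_ext (hG : GcStmt) (f : A →* K) (t : K) {aA : κ → Ξ × A × Ξ} (j j' : T → Ξ) {x : Ξ}
    {g : A} {y : Ξ} (p : Gn aA x g y) : Gn (ext f t aA j j') x (f g) y :=
  gn_map hG f (fun i => gn_arr (ext f t aA j j') (Sum.inl i)) p

lemma one (hD : DimStmt) (hG : GcStmt) [Fintype κ] [Fintype κ'] [Fintype T] (f : A →* K) (t : K)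
    (ι : K →* G) (v : C →* K) (aA : κ → Ξ × A × Ξ) (j j' : T → Ξ) (aC : κ' → T × C × T)
    (i i' : C →* A) (hi : ∀ γ, f (i γ) = v γ) (hi' : ∀ γ, f (i' γ) = t * v γ * t⁻¹)
    (g : ∀ s, Gn aA (j (aC s).1) (i (aC s).2.1) (j (aC s).2.2))
    (g' : ∀ s, Gn aA (j' (aC s).1) (i' (aC s).2.1) (j' (aC s).2.2)) :
    dim (Zg ι (ext f t aA j j')) + dim (Ph0 (ι.comp v) aC) ≤
      dim (Zg (ι.comp f) aA) + Fintype.card T := by
  choose P h1 hP using fun s => hG.ev A G Ξ κ (ι.comp f) aA _ _ _ (g s)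
  choose Q h2 hQ using fun s => hG.ev A G Ξ κ (ι.comp f) aA _ _ _ (g' s)
  obtain ⟨hW, eW⟩ := hD.sum G κ T _ ⊤ _ (hG.inv_z A G Ξ κ (ι.comp f) aA) inv_top ZintP.mem_pw
  let D : (κ ⊕ T → H G) →L[ℂ] (κ' → H G) := ContinuousLinearMap.pi fun s =>
    (lam (ι t⁻¹)).comp ((Q s).comp (ZintP.rs G Sum.inl) +
      (lam (ι (f (i' (aC s).2.1)))).comp (ContinuousLinearMap.proj (Sum.inr (aC s).1)) -
      ContinuousLinearMap.proj (Sum.inr (aC s).2.2)) - (P s).comp (ZintP.rs G Sum.inl)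
  have hDa : ∀ η s, D η s = lam (ι t⁻¹) (Q s (fun k => η (Sum.inl k)) +
      lam (ι (f (i' (aC s).2.1))) (η (Sum.inr (aC s).1)) - η (Sum.inr (aC s).2.2)) -
      P s fun k => η (Sum.inl k) := fun _ _ => rfl
  have hE : Eqi D := fun x ξ => funext fun s => by
    simp only [hDa, map_sub, map_add, ZintP.rl]
    rw [h1 s x fun k => ξ (Sum.inl k), h2 s x fun k => ξ (Sum.inl k)]
  have hr := hD.rn G _ _ _ D hW hE
  have k1 : Zg ι (ext f t aA j j') ≤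
      ZintP.pw (Zg (ι.comp f) aA) ⊤ ⊓ LinearMap.ker D.toLinearMap := by
    rintro η ⟨c, hc, e⟩
    have hA : Gc (ι.comp f) aA fun x g y => c x (f g) y := fun x g y h z p q => by
      show c x (f (h * g)) z = _
      rw [map_mul]
      exact hc _ _ _ _ _ (gn_ext hG f t j j' p) (gn_ext hG f t j j' q)
    have eA : (fun k => c (aA k).1 (f (aA k).2.1) (aA k).2.2) = fun k => η (Sum.inl k) :=
      funext fun k => e (Sum.inl k)
    have eT : ∀ x, c (j x) t (j' x) = η (Sum.inr x) := fun x => e (Sum.inr x)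
    have gT : ∀ x, Gn (ext f t aA j j') (j x) t (j' x) :=
      fun x => gn_arr (ext f t aA j j') (Sum.inr x)
    refine ⟨⟨⟨_, hA, fun k => e (Sum.inl k)⟩, trivial⟩, funext fun s => ?_⟩
    show D η s = 0
    have e1 := hP s _ hA
    have e2 := hQ s _ hA
    rw [eA] at e1 e2
    have e3 := hc _ _ _ _ _ (gT _) (gn_ext hG f t j j' (g' s))
    have e4 := hc _ _ _ _ _ (gn_ext hG f t j j' (g s)) (gT _)
    have e5 : f (i' (aC s).2.1) * t = t * f (i (aC s).2.1) := by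
      rw [hi, hi', inv_mul_cancel_right]
    rw [e5, e4, eT, eT] at e3
    rw [hDa, ← e1, ← e2, ← e3, add_sub_cancel_left, lt, sub_self]
  have k2 : Ph0 (ι.comp v) aC ≤ (ZintP.pw (Zg (ι.comp f) aA) ⊤).map D.toLinearMap := by
    rintro η ⟨φ, e⟩
    refine ⟨Sum.elim 0 fun x => lam (ι t) (φ x), ⟨(Zg (ι.comp f) aA).zero_mem, trivial⟩,
      funext fun s => ?_⟩
    show lam (ι t⁻¹) (Q s 0 + lam (ι (f (i' (aC s).2.1))) (lam (ι t) (φ (aC s).1)) -
      lam (ι t) (φ (aC s).2.2)) - P s 0 = _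
    rw [← e, map_zero, map_zero, zero_add, sub_zero, map_sub, hi', lc, lt, lt, pv, zero_add]
    rfl
  have m1 := hD.mono G _ _ _ k1
  have m2 := hD.mono G _ _ _ k2
  rw [eW, hD.top] at hr
  linarith

lemma two (hD : DimStmt) [Fintype μ] {c c' : A} {f : A →* K} {t : K} (h : Hx c c' f t)
    (ι : K →* G) {y : μ → A} (hy : Subgroup.closure (Set.range y) = ⊤) :
    dim (Zc (ι.comp f) y) ≤ dim (Zc ι (Sum.elim (fun k => f (y k)) fun _ : Unit => t)) := by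
  obtain ⟨hW, eW⟩ := hD.sum G μ Unit _ ⊤ _ (ZintP.inv_Zc (ι.comp f) hy) inv_top ZintP.mem_pw
  obtain ⟨P, h1, hP⟩ := ZintP.exT (ι.comp f) hy c
  obtain ⟨Q, h2, hQ⟩ := ZintP.exT (ι.comp f) hy c'
  let D : (μ ⊕ Unit → H G) →L[ℂ] (Unit → H G) :=
    ContinuousLinearMap.pi fun _ =>
      (ContinuousLinearMap.proj (Sum.inr ()) + (lam (ι t)).comp (P.comp (ZintP.rs G Sum.inl))) -
      (Q.comp (ZintP.rs G Sum.inl) + (lam (ι (f c'))).comp (ContinuousLinearMap.proj (Sum.inr ())))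
  have hDa : ∀ η, D η = fun _ => (η (Sum.inr ()) + lam (ι t) (P fun k => η (Sum.inl k))) -
      ((Q fun k => η (Sum.inl k)) + lam (ι (f c')) (η (Sum.inr ()))) := fun _ => rfl
  have hE : Eqi D := fun x ξ => funext fun _ => by
    simp only [hDa, map_sub, map_add, ZintP.rl]
    rw [h1 x fun k => ξ (Sum.inl k), h2 x fun k => ξ (Sum.inl k)]
  have hc : f c' * t = t * f c := by rw [h.hn.comm, inv_mul_cancel_right]
  have hK : ZintP.pw (Zc (ι.comp f) y) ⊤ ⊓ LinearMap.ker D.toLinearMap ≤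
      Zc ι (Sum.elim (fun k => f (y k)) fun _ : Unit => t) := by
    rintro η ⟨⟨⟨α, hα, e1⟩, -⟩, h0⟩
    have h3 : α c' + lam (ι (f c')) (η (Sum.inr ())) = η (Sum.inr ()) + lam (ι t) (α c) := by
      rw [hP α hα, hQ α hα, funext e1]
      exact (sub_eq_zero.1 (congrFun h0 ())).symm
    obtain ⟨π, p1, p2⟩ := h.hn.lift (ZintP.Af G) (ZintP.toAf hα) ⟨η (Sum.inr ()), ι t⟩
      (eq_mul_inv_of_mul_eq (ZintP.Af.ext h3 (by
        show ι (f c') * ι t = ι t * ι (f c)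
        rw [← map_mul, hc, map_mul])))
    refine ⟨_, ZintP.cy_of (π := π) (h.hn.gen _ (fun p => congrArg ZintP.Af.g (p1 p))
      (congrArg ZintP.Af.g p2)), ?_⟩
    rintro (k | k)
    · exact (congrArg ZintP.Af.v (p1 _)).trans (e1 k)
    · exact congrArg ZintP.Af.v p2
  have hr := hD.rn G _ _ _ D hW hE
  have m1 := hD.mono G _ _ _ hK
  have m2 := hD.mono G _ ((ZintP.pw (Zc (ι.comp f) y) ⊤).map D.toLinearMap) ⊤ le_top
  rw [eW] at hr
  linarith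

end Hxs

end

end Pool.Agent.MP_494aff_an.Rg

end MrgPart1

-- ======== part 2: formerly Pool.Agent.MP_494aff_an.rg.Hxs
section MrgPart2

/-! HNN extensions: the dimension count. -/

namespace Pool.Agent.MP_494aff_an.Rg

open Pool.Agent.MP_494aff_an.Pinch Pool.Agent.MP_494aff_an.Pinch.TowP Pool.Agent.MP_494aff_an.Lf
open Pool.Agent.MP_494aff_an.Se

noncomputable section

namespace Hxs

variable {A K G Ξ κ κ' T μ Ω : Type} [Group A] [Group K] [Group G]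

lemma ip_sub [Fintype κ] (ζ η η' : κ → H G) : ip ζ (η - η') = ip ζ η - ip ζ η' := by
  simp only [ip, Pi.sub_apply, inner_sub_right, Finset.sum_sub_distrib]

/-- Reordering of the coordinates. -/
def ro : (μ ⊕ Ξ) ⊕ Unit → (μ ⊕ Unit) ⊕ Ξ :=
  Sum.elim (Sum.elim (fun m => Sum.inl (Sum.inl m)) Sum.inr) fun u => Sum.inl (Sum.inr u)

lemma three (hD : DimStmt) (hG : GcStmt) (hB : BfStmt) (hK : KeyHStmt) [Fintype Ξ] [Fintype κ]
    [Fintype κ'] [Fintype T] [Fintype μ] {c c' : A} {f : A →* K} {t : K} (h : Hx c c' f t)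
    {ι : K →* G} {σ : K →* Equiv.Perm Ω} (hT : TF G) (hι : Function.Injective ι) (hS : Sep σ)
    {π : Ξ → Ω} {aA : κ → Ξ × A × Ξ} (hO : Over (σ.comp f) π aA) {j j' : T → Ξ} {πT : T → Ω}
    (hπ : Function.Injective πT) (hj : ∀ x, π (j x) = πT x) (hj' : ∀ x, π (j' x) = σ t (πT x))
    {aC : κ' → T × Subgroup.zpowers (f c) × T}
    (oC : Over (σ.comp (Subgroup.subtype _)) πT aC) (cC : Cmp (σ.comp (Subgroup.subtype _)) πT aC)
    (i i' : Subgroup.zpowers (f c) →* A) (hi : ∀ γ, f (i γ) = γ)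
    (hi' : ∀ γ, f (i' γ) = t * γ * t⁻¹)
    (g : ∀ s, Gn aA (j (aC s).1) (i (aC s).2.1) (j (aC s).2.2))
    (g' : ∀ s, Gn aA (j' (aC s).1) (i' (aC s).2.1) (j' (aC s).2.2))
    {y : μ → A} (hy : Subgroup.closure (Set.range y) = ⊤)
    (iK : Se.Inv (Af ι (Sum.elim (fun k => f (y k)) fun _ : Unit => t) (ext f t aA j j')))
    (iC : Se.Inv (Af (ι.comp (Subgroup.subtype _)) (fun _ : Unit => gz (f c)) aC)) :
    dim (Af ι (Sum.elim (fun k => f (y k)) fun _ : Unit => t) (ext f t aA j j')) +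
      dim (Af (ι.comp (Subgroup.subtype _)) (fun _ : Unit => gz (f c)) aC) ≤
      dim (Af (ι.comp f) y aA) + 1 := by
  obtain ⟨hW, eW⟩ := hD.sum G (μ ⊕ Ξ) Unit _ ⊤ _ (hG.af A G Ξ κ μ (ι.comp f) y aA hy).1 inv_top
    ZintP.mem_pw
  obtain ⟨P, h1, hP⟩ := ZintP.exT (ι.comp f) hy c
  obtain ⟨Q, h2, hQ⟩ := ZintP.exT (ι.comp f) hy c'
  let pr : (μ ⊕ Ξ) ⊕ Unit → ((μ ⊕ Ξ) ⊕ Unit → H G) →L[ℂ] H G :=
    fun s => ContinuousLinearMap.proj s
  let D : ((μ ⊕ Ξ) ⊕ Unit → H G) →L[ℂ] (Unit ⊕ T → H G) := ContinuousLinearMap.pi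
    (Sum.elim (fun _ => P.comp (ZintP.rs G fun k => Sum.inl (Sum.inl k)) - (lam (ι t⁻¹)).comp
      (Q.comp (ZintP.rs G fun k => Sum.inl (Sum.inl k)) +
        (lam (ι (f c'))).comp (pr (Sum.inr ())) - pr (Sum.inr ())))
      fun x => pr (Sum.inl (Sum.inr (j x))) - (lam (ι t⁻¹)).comp
        (pr (Sum.inl (Sum.inr (j' x))) - pr (Sum.inr ())))
  have d1 : ∀ η u, D η (Sum.inl u) = (P fun k => η (Sum.inl (Sum.inl k))) - lam (ι t⁻¹)
      ((Q fun k => η (Sum.inl (Sum.inl k))) + lam (ι (f c')) (η (Sum.inr ())) - η (Sum.inr ())) :=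
    fun _ _ => rfl
  have d2 : ∀ η x, D η (Sum.inr x) = η (Sum.inl (Sum.inr (j x))) - lam (ι t⁻¹)
      (η (Sum.inl (Sum.inr (j' x))) - η (Sum.inr ())) := fun _ _ => rfl
  have hE : Eqi D := fun x ξ => funext fun s => by
    rcases s with u | s
    · simp only [d1, map_sub, map_add, ZintP.rl]
      rw [h1 x fun k => ξ (Sum.inl (Sum.inl k)), h2 x fun k => ξ (Sum.inl (Sum.inl k))]
    · simp only [d2, map_sub, ZintP.rl]
  have hr := hD.rn G _ _ _ D hW hE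
  have hc : f c' * t = t * f c := by rw [h.hn.comm, inv_mul_cancel_right]
  have ic : i (gz (f c)) = c := h.hf (hi _)
  have ic' : i' (gz (f c)) = c' := h.hf ((hi' _).trans h.hn.comm.symm)
  have k1 : (Af ι (Sum.elim (fun k => f (y k)) fun _ : Unit => t) (ext f t aA j j')).map
      (ZintP.rs G ro).toLinearMap ≤
      ZintP.pw (Af (ι.comp f) y aA) ⊤ ⊓ LinearMap.ker D.toLinearMap := by
    rintro _ ⟨η, ⟨γ, hγ, e, p⟩, rfl⟩
    have hA := ZintP.cy_comp hγ f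
    refine ⟨⟨⟨_, hA, fun m => e (Sum.inl m), fun k => p (Sum.inl k)⟩, trivial⟩,
      funext fun s => ?_⟩
    have et : γ t = η (Sum.inl (Sum.inr ())) := e (Sum.inr ())
    rcases s with u | x
    · show (P fun k => η (Sum.inl (Sum.inl k))) - lam (ι t⁻¹)
        ((Q fun k => η (Sum.inl (Sum.inl k))) + lam (ι (f c')) (η (Sum.inl (Sum.inr ()))) -
          η (Sum.inl (Sum.inr ()))) = 0
      have eA : (fun k => γ (f (y k))) = fun k => η (Sum.inl (Sum.inl k)) :=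
        funext fun k => e (Sum.inl k)
      have e1 := hP _ hA
      have e2 := hQ _ hA
      rw [eA] at e1 e2
      rw [← e1, ← e2, ← et, ← hγ, hc, hγ, add_sub_cancel_left, lt, sub_self]
    · show η (Sum.inr (j x)) - lam (ι t⁻¹) (η (Sum.inr (j' x)) - η (Sum.inl (Sum.inr ()))) = 0
      have e1 : γ t + lam (ι t) (η (Sum.inr (j x))) - η (Sum.inr (j' x)) = 0 := p (Sum.inr x)
      rw [← sub_eq_zero.1 e1, ← et, add_sub_cancel_left, lt, sub_self]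
  have k2 : (ZintP.pw (Af (ι.comp f) y aA) ⊤).map D.toLinearMap ≤
      Af (ι.comp (Subgroup.subtype _)) (fun _ : Unit => gz (f c)) aC := by
    rintro _ ⟨η, ⟨⟨α, hα, e, p⟩, -⟩, rfl⟩
    have hα' : ∀ a b, α (a * b) = α a + lam (ι (f a)) (α b) := hα
    refine ⟨fun γ => α (i γ) - lam (ι t⁻¹) (α (i' γ) + lam (ι (f (i' γ))) (η (Sum.inr ())) -
      η (Sum.inr ())), fun a b => ?_, fun u => ?_, fun s => ?_⟩
    · show _ = _ + lam (ι a) _
      have e1 : ∀ ξ, lam (ι (f (i' a * i' b))) ξ = lam (ι (f (i' a))) (lam (ι (f (i' b))) ξ) :=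
        fun ξ => by rw [ll, map_mul, map_mul]
      simp only [map_mul i, map_mul i', hα', e1, map_sub, map_add, hi, hi' a, lc]
      abel
    · show α (i (gz (f c))) - lam (ι t⁻¹) (α (i' (gz (f c))) +
        lam (ι (f (i' (gz (f c))))) (η (Sum.inr ())) - η (Sum.inr ())) = D η (Sum.inl u)
      rw [d1, ic, ic', hP α hα, hQ α hα, funext e]
      rfl
    · have e1 := hG.af_gn A G Ξ κ _ aA α _ hα p _ _ _ (g s)
      have e2 := congrArg (lam (ι t⁻¹)) (hG.af_gn A G Ξ κ _ aA α _ hα p _ _ _ (g' s))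
      show _ + lam (ι (aC s).2.1) (D η (Sum.inr _)) - D η (Sum.inr _) = 0
      simp only [pv, MonoidHom.comp_apply, hi, hi', map_sub, map_add, map_zero, lc,
        LinearMap.funLeft_apply] at e1 e2
      simp only [d2, hi', map_sub, map_add, lc]
      rw [← sub_eq_zero.2 (e1.trans e2.symm)]
      abel
  have k3 := hG.orth G _ _ _ k2 iC.1 fun ζ hζ ho => by
    refine hK A K G Ω T κ' c c' f t ι σ πT aC ζ h hT hι hS hπ oC cC hζ (fun v => ?_)
      fun φ hφ x ω => ?_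
    · refine ho _ ⟨Sum.elim 0 fun _ => lam (ι t) v, ⟨(Af (ι.comp f) y aA).zero_mem, trivial⟩,
        funext fun s => ?_⟩
      rcases s with u | x
      · show P 0 - lam (ι t⁻¹) (Q 0 + lam (ι (f c')) (lam (ι t) v) - lam (ι t) v) =
          v - lam (ι (f c)) v
        rw [map_zero, map_zero, zero_add, map_sub, h.hn.comm, lc, lt, zero_sub, neg_sub]
      · show 0 - lam (ι t⁻¹) (0 - lam (ι t) v) = v
        rw [zero_sub, zero_sub, map_neg, neg_neg, lt]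
    · obtain ⟨-, -, b1, b2, -⟩ := hB A G Ω (ι.comp f) (σ.comp f) φ x (hι.comp h.hf) hφ
      set b := bf (ι.comp f) (σ.comp f) φ x with hb
      have b3 : ∀ ω ω' k, lam (ι (f k)) (b ω ω') = b (σ (f k) ω) (σ (f k) ω') := b2
      have b4 : ∀ p q r, b p r - b q r = b p q := fun p q r => by
        rw [← b1 p q r, add_sub_cancel_right]
      have hα : Cy (ι.comp f) fun a => b (σ (f a) ω) ω := fun p q => by
        show b (σ (f (p * q)) ω) ω = b (σ (f p) ω) ω + lam (ι (f p)) (b (σ (f q) ω) ω)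
        rw [b3, add_comm, b1, map_mul, map_mul]
        rfl
      rw [← sub_eq_zero, ← ip_sub]
      refine ho _ ⟨Sum.elim (Sum.elim (fun m => b (σ (f (y m)) ω) ω) fun ξ => b (π ξ) ω)
        fun _ => b (σ t ω) ω, ⟨⟨_, hα, fun _ => rfl, fun k => ?_⟩, trivial⟩, funext fun s => ?_⟩
      · show b (σ (f (aA k).2.1) ω) ω + lam (ι (f (aA k).2.1)) (b (π (aA k).1) ω) -
          b (π (aA k).2.2) ω = 0
        rw [b3, add_comm, b1, ← hO k]
        exact sub_self _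
      · rcases s with u | z
        · show (P fun m => b (σ (f (y m)) ω) ω) - lam (ι t⁻¹) ((Q fun m => b (σ (f (y m)) ω) ω) +
            lam (ι (f c')) (b (σ t ω) ω) - b (σ t ω) ω) =
            b (σ (f c) ω) ω - lam (ι t⁻¹) (b (σ (t * f c) ω) (σ t ω))
          rw [← hP _ hα, ← hQ _ hα, b3, add_comm, b1, b4, ← hc, map_mul σ]
          rfl
        · show b (π (j z)) ω - lam (ι t⁻¹) (b (π (j' z)) ω - b (σ t ω) ω) =
            b (πT z) ω - lam (ι t⁻¹) (b (σ t (πT z)) (σ t ω))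
          rw [hj, hj', b4]
  have e1 := ZintP.dim_inj hD (S := ZintP.rs G (ro (μ := μ) (Ξ := Ξ))) iK (fun _ _ => rfl)
    fun η _ h0 => funext fun s => by
      rcases s with (m | u) | x
      · exact congrFun h0 (Sum.inl (Sum.inl m))
      · exact congrFun h0 (Sum.inr u)
      · exact congrFun h0 (Sum.inl (Sum.inr x))
  have m1 := hD.mono G _ _ _ k1
  have e2 := hD.clo G _ ((ZintP.pw (Af (ι.comp f) y aA) ⊤).map D.toLinearMap)
  rw [k3] at e2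
  rw [eW, hD.top, Fintype.card_unit, Nat.cast_one] at hr
  linarith

lemma core (hD : DimStmt) (hG : GcStmt) (hO : CobStmt) (hB : BfStmt) (hK : KeyHStmt) [Fintype Ξ]
    [Fintype κ] [Fintype κ'] [Fintype T] {c c' : A} {f : A →* K} {t : K} (h : Hx c c' f t)
    (fA : Group.FG A) {ι : K →* G} {σ : K →* Equiv.Perm Ω} (hT : TF G)
    (hι : Function.Injective ι) (hS : Sep σ) {π : Ξ → Ω} {aA : κ → Ξ × A × Ξ}
    (oA : Over (σ.comp f) π aA) (dA : dim (Zg (ι.comp f) aA) ≤ dim (Ph (ι.comp f) aA))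
    {j j' : T → Ξ} {πT : T → Ω}
    (hπ : Function.Injective πT) (hj : ∀ x, π (j x) = πT x) (hj' : ∀ x, π (j' x) = σ t (πT x))
    {aC : κ' → T × Subgroup.zpowers (f c) × T}
    (oC : Over (σ.comp (Subgroup.subtype _)) πT aC) (cC : Cmp (σ.comp (Subgroup.subtype _)) πT aC)
    (i i' : Subgroup.zpowers (f c) →* A) (hi : ∀ γ, f (i γ) = γ)
    (hi' : ∀ γ, f (i' γ) = t * γ * t⁻¹)
    (g : ∀ s, Gn aA (j (aC s).1) (i (aC s).2.1) (j (aC s).2.2))
    (g' : ∀ s, Gn aA (j' (aC s).1) (i' (aC s).2.1) (j' (aC s).2.2)) :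
    dim (Zg ι (ext f t aA j j')) ≤ dim (Ph ι (ext f t aA j j')) := by
  obtain ⟨μ, _, y, hy⟩ := ZintP.fam fA
  have hz : Subgroup.closure (Set.range (Sum.elim (fun k => f (y k)) fun _ : Unit => t)) = ⊤ := by
    refine (Subgroup.eq_top_iff' _).2 (h.hn.gen _ (fun p => ?_)
      (Subgroup.subset_closure ⟨Sum.inr (), rfl⟩))
    exact ZintP.map_mem hy f (fun k => by exact Subgroup.subset_closure ⟨Sum.inl k, rfl⟩) p
  have hw : Subgroup.closure (Set.range fun _ : Unit => gz (f c)) = ⊤ := by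
    refine (Subgroup.eq_top_iff' _).2 ?_
    rintro ⟨_, n, rfl⟩
    exact Subgroup.zpow_mem _ (Subgroup.subset_closure (Set.mem_range_self ())) n
  obtain ⟨iK, aK⟩ := hG.af K G Ξ _ _ ι _ (ext f t aA j j') hz
  obtain ⟨-, a1⟩ := hG.af A G Ξ _ _ (ι.comp f) _ aA hy
  obtain ⟨iC, a2⟩ := hG.af _ G T _ _ (ι.comp (Subgroup.subtype _)) _ aC hw
  have s1 := one hD hG f t ι (Subgroup.subtype _) aA j j' aC i i' hi hi' g g'
  have s2 := two hD h ι hy
  have s3 := three hD hG hB hK h hT hι hS oA hπ hj hj' oC cC i i' hi hi' g g' hy iK iC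
  have s4 := hO _ G T κ' (ι.comp (Subgroup.subtype _)) aC hT (hι.comp Subtype.val_injective)
    fun a b => by
      obtain ⟨_, m, rfl⟩ := a
      obtain ⟨_, n, rfl⟩ := b
      exact Subtype.ext (zpow_mul_comm _ _ _)
  have s5 := hD.mono G _ _ _ (hG.le _ G T κ' (ι.comp (Subgroup.subtype _)) aC).2
  have s6 : dim (Zc (ι.comp (Subgroup.subtype _)) fun _ : Unit => gz (f c)) = 1 :=
    ZintP.dim_one hD (hT (ι (f c)) fun e => h.cyc.1 (h.hf (hι (by rw [e, map_one, map_one]))))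
      fun ξ => ⟨_, ZintP.cy_cob _ ξ, fun _ => rfl⟩
  linarith

end Hxs

open Hxs in
theorem hxs (hD : DimStmt) (_hC : CocStmt) (hG : GcStmt) (hO : CobStmt) (hB : BfStmt)
    (hK : KeyHStmt) : HxsStmt := by
  classical
  intro A K _ _ c c' f t h fA pA G Ω Ξ₀ κ₀ _ _ _ ι σ π₀ a₀ hT hι hS hπ o₀
  choose F₀ hF using fun k => gn_fin hG (gn_al hG h.hn.gen σ (a₀ k).2.1 (π₀ (a₀ k).1))
  let F := Finset.univ.biUnion F₀
  let S : Finset Ω := Finset.univ.image π₀ ∪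
    (F.image (fun s => (al f t σ s).1) ∪ F.image fun s => (al f t σ s).2.2)
  have s0 : ∀ x, π₀ x ∈ S := fun x =>
    Finset.mem_union_left _ (Finset.mem_image_of_mem _ (Finset.mem_univ x))
  have s1 : ∀ s ∈ F, (al f t σ s).1 ∈ S := fun s hs =>
    Finset.mem_union_right _ (Finset.mem_union_left _ (Finset.mem_image_of_mem _ hs))
  have s2 : ∀ s ∈ F, (al f t σ s).2.2 ∈ S := fun s hs =>
    Finset.mem_union_right _ (Finset.mem_union_right _ (Finset.mem_image_of_mem _ hs))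
  let p : F.toRight → S := fun x => ⟨x.1, s1 _ (Finset.mem_toRight.1 x.2)⟩
  let p' : F.toRight → S := fun x => ⟨σ t x.1, s2 _ (Finset.mem_toRight.1 x.2)⟩
  obtain ⟨κC, _, aC, oC, cC⟩ := hG.cmp _ Ω F.toRight (gz (f c))
    (σ.comp (Subgroup.subtype _)) Subtype.val (by
      rintro ⟨_, n, rfl⟩
      exact ⟨n, rfl⟩)
  obtain ⟨i, hi⟩ := lift_hom h.hf (Subgroup.zpowers (f c)).subtype (by
    rintro ⟨_, n, rfl⟩
    exact ⟨c ^ n, map_zpow f c n⟩)
  obtain ⟨i', hi'⟩ := lift_hom h.hf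
    ((MulAut.conj t).toMonoidHom.comp (Subgroup.zpowers (f c)).subtype) (by
    rintro ⟨_, n, rfl⟩
    exact ⟨c' ^ n, by rw [map_zpow, h.hn.comm, conj_zpow]; rfl⟩)
  have hi1 : ∀ γ, f (i γ) = γ := hi
  have hi2 : ∀ γ, f (i' γ) = t * γ * t⁻¹ := hi'
  let b : F.toLeft ⊕ κC ⊕ κC → S × A × S := Sum.elim
    (fun e => (⟨e.1.1, s1 _ (Finset.mem_toLeft.1 e.2)⟩, e.1.2,
      ⟨σ (f e.1.2) e.1.1, s2 _ (Finset.mem_toLeft.1 e.2)⟩))
    (Sum.elim (fun s => (p (aC s).1, i (aC s).2.1, p (aC s).2.2))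
      fun s => (p' (aC s).1, i' (aC s).2.1, p' (aC s).2.2))
  obtain ⟨Ξ, κ, _, _, π, j, aA, hj, oA, gA, dA⟩ := pA G Ω S _ (ι.comp f) (σ.comp f) Subtype.val b
    hT (hι.comp h.hf) (fun ω ω' hne => by
      obtain ⟨φ, h1, h2⟩ := hS ω ω' hne
      exact ⟨φ, fun u u' => (h1 u u').comp_injective h.hf, h2⟩) Subtype.val_injective (by
      rintro (e | s | s)
      · rfl
      · show σ (f (i (aC s).2.1)) (aC s).1.1 = (aC s).2.2.1
        rw [hi1]
        exact oC s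
      · show σ (f (i' (aC s).2.1)) (σ t (aC s).1.1) = σ t (aC s).2.2.1
        rw [hi2, ← Equiv.Perm.mul_apply, ← map_mul, inv_mul_cancel_right, map_mul, ← oC s]
        rfl)
  refine ⟨Ξ, κ ⊕ F.toRight, inferInstance, inferInstance, π, fun x => j ⟨π₀ x, s0 x⟩,
    ext f t aA (fun x => j (p x)) fun x => j (p' x), fun x => hj _, ?_, fun k => ?_,
    core hD hG hO hB hK h fA hT hι hS oA dA Subtype.val_injective (fun x => hj _) (fun x => hj _)
      oC cC i i' hi1 hi2 (fun s => gA (Sum.inr (Sum.inl s))) fun s => gA (Sum.inr (Sum.inr s))⟩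
  · rintro (k | x)
    · exact oA k
    · show σ t (π (j (p x))) = π (j (p' x))
      rw [hj, hj]
  · have := hF k Ξ _ (ext f t aA (fun x => j (p x)) fun x => j (p' x))
      (fun ω => if hω : ω ∈ S then j ⟨ω, hω⟩ else j ⟨π₀ (a₀ k).1, s0 _⟩) fun s hs => by
        have hs' : s ∈ F := Finset.mem_biUnion.2 ⟨k, Finset.mem_univ _, hs⟩
        rw [dif_pos (s1 s hs'), dif_pos (s2 s hs')]
        rcases s with e | x
        · exact gn_ext hG f t _ _ (gA (Sum.inl ⟨e, Finset.mem_toLeft.2 hs'⟩))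
        · exact gn_arr (ext f t aA (fun x => j (p x)) fun x => j (p' x))
            (Sum.inr ⟨x, Finset.mem_toRight.2 hs'⟩)
    rwa [o₀ k, dif_pos (s0 _), dif_pos (s0 _)] at this

end

end Pool.Agent.MP_494aff_an.Rg

end MrgPart2

-- marker of a merged file
example : 731051 + 345566 = 731051 + 345566 := rfl

end MrgPart2

-- marker of a merged file
example : 731051 + 345566 = 731051 + 345566 := rfl
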